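import Pool.Agent.H900.PW.Fw
import Pool.Graph.R_pool_sql_team_seeded_1e53cb71.Helper93K9.PAR.Base

/-! # Families with independent coefficients -/

set_option autoImplicit false
set_option linter.unusedSectionVars false
set_option linter.unusedVariables false

namespace Pool.Agent.H900.PW

open MvPolynomial Module FF

noncomputable section

open scoped IntermediateField.algebraAdjoinAdjoin in
theorem base_famw {J : Type} {r : ℕ} (hr : 0 < r) {W : Finset J} {κ0 : J} (h0 : κ0 ∈ W)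
    (F : J → MvPolynomial (Fin r) ℂ) (F0 : J → MvPolynomial (Fin r) ℚ)
    (hF : ∀ κ ∈ W, (F κ).IsHomogeneous 3) (hF0 : ∀ κ ∈ W, (F0 κ).IsHomogeneous 3)
    (hind : AlgebraicIndependent ℚ
      (fun p : W × {β : Fin r →₀ ℕ // β.degree = 3} => MvPolynomial.coeff p.2.1 (F p.1))) :
    ∃ (Ω : IntermediateField ℚ ℂ) (c : ℂ) (G : J → MvPolynomial (Fin r) Ω),
      IsAlgClosed Ω ∧ Transcendental Ω c ∧
      Algebra.IsAlgebraic (IntermediateField.adjoin Ω {c}) ℂ ∧
      (∀ κ ∈ W, (G κ).IsHomogeneous 3) ∧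
      ∀ κ ∈ W, F κ = MvPolynomial.map (algebraMap ℚ ℂ) (F0 κ) +
        MvPolynomial.C c * MvPolynomial.map (algebraMap Ω ℂ) (G κ) := by
  classical
  obtain ⟨β0, hβ0⟩ : ∃ β : Fin r →₀ ℕ, β.degree = 3 :=
    ⟨Finsupp.single ⟨0, hr⟩ 3, by simp⟩
  let s0 : W × {β : Fin r →₀ ℕ // β.degree = 3} := (⟨κ0, h0⟩, ⟨β0, hβ0⟩)
  set c : ℂ := coeff β0 (F κ0) - algebraMap ℚ ℂ (coeff β0 (F0 κ0)) with hc
  obtain ⟨g, hg⟩ : ∃ g : W × {β : Fin r →₀ ℕ // β.degree = 3} → ℂ,
    g = fun p => if p = s0 then c else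
      (coeff p.2.1 (F p.1) - algebraMap ℚ ℂ (coeff p.2.1 (F0 p.1))) / c :=
    ⟨_, rfl⟩
  have hg0 : g s0 = c := by rw [hg]; exact if_pos rfl
  have hgs : ∀ p : W × {β : Fin r →₀ ℕ // β.degree = 3}, p ≠ s0 →
      g p = (coeff p.2.1 (F p.1) - algebraMap ℚ ℂ (coeff p.2.1 (F0 p.1))) / c := by
    intro β hβ
    rw [hg]
    exact if_neg hβ
  have hc0 : c ≠ 0 := by
    intro h
    have h1 : coeff β0 (F κ0) = algebraMap ℚ ℂ (coeff β0 (F0 κ0)) := by
      rw [hc, sub_eq_zero] at h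
      exact h
    refine hind.transcendental s0 ?_
    show IsAlgebraic ℚ (coeff β0 (F κ0))
    rw [h1]
    exact isAlgebraic_algebraMap _
  have hgi : AlgebraicIndependent ℚ g := by
    refine Pool.Agent.Helper93K9.PAR.indep_div _ g (fun p => coeff p.2.1 (F0 p.1)) s0 hind ?_ ?_
    · rw [hg0, hc]
      show coeff β0 (F κ0) = ((coeff β0 (F0 κ0) : ℚ) : ℂ) +
        (coeff β0 (F κ0) - algebraMap ℚ ℂ (coeff β0 (F0 κ0)))
      rw [eq_ratCast]
      ring
    · intro p hp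
      rw [hg0, hgs p hp, mul_div_cancel₀ _ hc0, eq_ratCast]
      ring
  obtain ⟨B, hgB, hB⟩ := exists_isTranscendenceBasis_superset (R := ℚ) (s := Set.range g)
    hgi.coe_range
  have hcB : c ∈ B := hgB ⟨_, hg0⟩
  set B' : Set ℂ := B \ {c} with hB'
  set K0 := IntermediateField.adjoin ℚ B' with hK0
  have hB'K : B' ⊆ K0 := IntermediateField.subset_adjoin ℚ B'
  obtain ⟨Ω, hΩ⟩ : ∃ Ω : IntermediateField ℚ ℂ, Ω = (algebraicClosure K0 ℂ).restrictScalars ℚ :=
    ⟨_, rfl⟩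
  have hcK0 : Transcendental K0 c := by
    have h1 := hB.1.transcendental_adjoin (s := {b : B | b.1 ≠ c}) (i := ⟨c, hcB⟩) (by simp)
    have h2 : ((↑) : B → ℂ) '' {b : B | b.1 ≠ c} = B' := by
      ext z
      simp only [Set.mem_image, Set.mem_ofPred_eq, Subtype.exists, exists_and_right,
        exists_eq_right, hB', Set.mem_sdiff, Set.mem_singleton_iff]
      constructor
      · rintro ⟨h1, h2⟩
        exact ⟨h1, h2⟩
      · rintro ⟨h1, h2⟩
        exact ⟨h1, h2⟩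
    rw [h2] at h1
    intro h3
    exact h1 ((IsFractionRing.isAlgebraic_iff (Algebra.adjoin ℚ B') K0 ℂ).2 h3)
  have hcΩ : Transcendental Ω c := by
    rw [hΩ]
    exact hcK0.algebraicClosure
  have hΩc : IsAlgClosed Ω := by
    rw [hΩ]
    exact (algebraicClosure.isAlgClosure (F := K0) (E := ℂ)).isAlgClosed
  have hB'Ω : B' ⊆ Ω := by
    intro z hz
    rw [hΩ]
    show z ∈ algebraicClosure K0 ℂ
    exact (algebraicClosure K0 ℂ).algebraMap_mem ⟨z, hB'K hz⟩
  have hGex : ∀ τ, ∃ G : MvPolynomial (Fin r) Ω, τ ∈ W → map (algebraMap Ω ℂ) G =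
      C c⁻¹ * (F τ - map (algebraMap ℚ ℂ) (F0 τ)) := by
    intro τ
    by_cases hτ : τ ∈ W
    swap
    · exact ⟨0, fun h => absurd h hτ⟩
    have : C c⁻¹ * (F τ - map (algebraMap ℚ ℂ) (F0 τ)) ∈
        Set.range (map (σ := Fin r) (algebraMap Ω ℂ)) := by
      rw [mem_range_map_iff_coeffs_subset]
      intro z hz
      rw [Finset.mem_coe, mem_coeffs_iff] at hz
      obtain ⟨β, hβ, rfl⟩ := hz
      rw [coeff_C_mul, coeff_sub, coeff_map]
      by_cases h3 : β.degree = 3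
      · by_cases hs0 : ((⟨τ, hτ⟩, ⟨β, h3⟩) : W × {β : Fin r →₀ ℕ // β.degree = 3}) = s0
        · have e1 : τ = κ0 := congrArg (fun p => p.1.1) hs0
          have e2 : β = β0 := congrArg (fun p => p.2.1) hs0
          refine ⟨1, ?_⟩
          rw [map_one, e1, e2, ← hc, inv_mul_cancel₀ hc0]
        · have h4 := hgs (⟨τ, hτ⟩, ⟨β, h3⟩) hs0
          have h5 : g (⟨τ, hτ⟩, ⟨β, h3⟩) ∈ B' := by
            refine ⟨hgB ⟨_, rfl⟩, ?_⟩
            intro h
            have h6 : g (⟨τ, hτ⟩, ⟨β, h3⟩) = g s0 := by rw [hg0]; exact h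
            exact hs0 (hgi.injective h6)
          refine ⟨⟨g (⟨τ, hτ⟩, ⟨β, h3⟩), hB'Ω h5⟩, ?_⟩
          show g (⟨τ, hτ⟩, ⟨β, h3⟩) = _
          rw [h4, div_eq_inv_mul]
      · refine ⟨0, ?_⟩
        rw [map_zero, (hF τ hτ).coeff_eq_zero h3, (hF0 τ hτ).coeff_eq_zero h3, map_zero, sub_zero,
          mul_zero]
    obtain ⟨G, hG⟩ := this
    exact ⟨G, fun _ => hG⟩
  choose G hG using hGex
  refine ⟨Ω, c, G, hΩc, hcΩ, ?_, ?_, ?_⟩
  · have h1 := hB.isAlgebraic_field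
    have hle : IntermediateField.adjoin ℚ (Set.range ((↑) : B → ℂ)) ≤
        (IntermediateField.adjoin Ω {c}).restrictScalars ℚ := by
      rw [IntermediateField.adjoin_le_iff]
      rintro _ ⟨b, rfl⟩
      by_cases hb : b.1 = c
      · rw [hb]
        exact IntermediateField.mem_adjoin_simple_self Ω c
      · exact (IntermediateField.adjoin Ω {c}).algebraMap_mem ⟨b.1, hB'Ω ⟨b.2, hb⟩⟩
    let L := IntermediateField.adjoin ℚ (Set.range ((↑) : B → ℂ))
    let _ : Algebra L (IntermediateField.adjoin Ω {c}) :=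
      ((IntermediateField.inclusion hle).toRingHom : L →+*
        (IntermediateField.adjoin Ω {c}).restrictScalars ℚ).toAlgebra
    have : IsScalarTower L (IntermediateField.adjoin Ω {c}) ℂ :=
      IsScalarTower.of_algebraMap_eq fun x => rfl
    exact Algebra.IsAlgebraic.tower_top (K := L) (IntermediateField.adjoin Ω {c})
  · intro τ hτ β hβ
    by_contra h3
    apply hβ
    have h5 : β.degree ≠ 3 := by
      intro h
      apply h3
      rw [← h, Finsupp.degree_eq_weight_one]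
      rfl
    have h4 : (algebraMap Ω ℂ) (coeff β (G τ)) = 0 := by
      rw [← coeff_map, hG τ hτ, coeff_C_mul, coeff_sub, coeff_map, (hF τ hτ).coeff_eq_zero h5,
        (hF0 τ hτ).coeff_eq_zero h5, map_zero, sub_zero, mul_zero]
    exact (map_eq_zero _).1 h4
  · intro τ hτ
    rw [hG τ hτ, ← mul_assoc, ← C_mul, mul_inv_cancel₀ hc0, C_1, one_mul]
    ring

end

end Pool.Agent.H900.PW
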