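import Pool.Agent.H900.PW.CA

/-! # Families with a prescribed section -/

set_option autoImplicit false
set_option linter.unusedSectionVars false
set_option linter.unusedVariables false

namespace Pool.Agent.H900.PW

open MvPolynomial Module Pool.Agent.H900.PC
open Pool.Agent.H900.PN (Dat Phi Phi_hom)

noncomputable section

/-- the scaled family -/
def Fscw {J : Type} {n : ℕ} (c : ℂ) (F : J → MvPolynomial (Fin (n + 2)) ℂ)
    (τ : J) : MvPolynomial (Fin (n + 2)) ℂ :=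
  C c * aeval (fun i => C (sc c⁻¹ i) * X i) (F τ)

theorem coeff_Fscw {J : Type} {n : ℕ} (c : ℂ) (F : J → MvPolynomial (Fin (n + 2)) ℂ)
    (τ : J) (β : Fin (n + 2) →₀ ℕ) :
    coeff β (Fscw c F τ) = c * (c⁻¹ ^ ey β * coeff β (F τ)) := by
  unfold Fscw
  rw [coeff_C_mul, coeff_scale, prod_sc]

theorem phiw_zero {s n : ℕ} {k : Type} [CommRing k] (D : Dat n (Fin s)) (i0 : Fin s)
    (κ : Fin s → ℕ) (β : Fin (n + 2) →₀ ℕ) (h0 : β 0 = 0) (hl : β (Fin.last (n + 1)) = 0) :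
    coeff β (extd (Phi k D i0) κ) = 0 := by
  unfold extd
  split_ifs
  · exact phi_zero D i0 _ β h0 hl
  · exact coeff_zero β

theorem exists_HBw {s n : ℕ} (D : Dat n (Fin s)) {i0 : Fin s} (j0 : Fin n)
    {W : Finset (Fin s → ℕ)} (hW0 : (0 : Fin s → ℕ) ∈ W)
    {F : (Fin s → ℕ) → MvPolynomial (Fin (n + 2)) ℂ} (hF : ∀ τ ∈ W, (F τ).IsHomogeneous 3)
    (k0 : IntermediateField ℚ ℂ)
    (hk0 : ∀ τ ∈ W, ∀ β : Fin (n + 2) →₀ ℕ, β 0 = 0 → β (Fin.last (n + 1)) = 0 →
      coeff β (F τ) ∈ k0)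
    (hind : AlgebraicIndependent k0 (fun p : W × Fm n => coeff p.2.1 (F p.1))) :
    ∃ c : ℂ, c ≠ 0 ∧ HBw D i0 W (Fscw c F) := by
  classical
  -- the first monomial
  let β0 : Fin (n + 2) →₀ ℕ := Finsupp.single 0 1 + Finsupp.single j0.castSucc.succ 2
  have hj : j0.castSucc.succ ≠ (0 : Fin (n + 2)) := Fin.succ_ne_zero _
  have hjl : j0.castSucc.succ ≠ Fin.last (n + 1) := by
    intro h
    have h3 := congrArg Fin.val h
    simp only [Fin.val_succ, Fin.val_castSucc, Fin.val_last] at h3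
    have := j0.isLt
    omega
  have h0l : (0 : Fin (n + 2)) ≠ Fin.last (n + 1) := by
    intro h
    exact absurd (congrArg Fin.val h) (by simp)
  have hβ00 : β0 0 = 1 := by
    show (Finsupp.single 0 1 : Fin (n + 2) →₀ ℕ) 0 + (Finsupp.single j0.castSucc.succ 2 :
      Fin (n + 2) →₀ ℕ) 0 = 1
    rw [Finsupp.single_eq_same, Finsupp.single_eq_of_ne hj.symm, add_zero]
  have hβ0l : β0 (Fin.last (n + 1)) = 0 := by
    show (Finsupp.single 0 1 : Fin (n + 2) →₀ ℕ) (Fin.last (n + 1)) +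
      (Finsupp.single j0.castSucc.succ 2 : Fin (n + 2) →₀ ℕ) (Fin.last (n + 1)) = 0
    rw [Finsupp.single_eq_of_ne h0l.symm, Finsupp.single_eq_of_ne hjl.symm, add_zero]
  have hey0 : ey β0 = 1 := by
    unfold ey
    rw [hβ00, hβ0l]
  have hdeg0 : β0.degree = 3 := by
    rw [map_add, Finsupp.degree_single, Finsupp.degree_single]
  let s0 : W × Fm n := (⟨0, hW0⟩, ⟨β0, hdeg0, Or.inl (by rw [hβ00]; exact one_ne_zero)⟩)
  set φ : W × Fm n → ℂ := fun p => algebraMap ℚ ℂ (coeff p.2.1 (extd (Phi ℚ D i0) p.1)) with hφ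
  set f : W × Fm n → ℂ := fun p => coeff p.2.1 (F p.1) with hf
  set c : ℂ := f s0 - φ s0 with hc
  have hφk : ∀ (K : IntermediateField k0 ℂ) (p : W × Fm n), φ p ∈ K := by
    intro K p
    have h1 : φ p = algebraMap k0 ℂ (algebraMap ℚ k0 (coeff p.2.1 (extd (Phi ℚ D i0) p.1))) := rfl
    rw [h1]
    exact K.algebraMap_mem _
  have hc0 : c ≠ 0 := by
    intro h
    have h1 : f s0 = φ s0 := sub_eq_zero.1 h
    refine hind.transcendental s0 ?_
    show IsAlgebraic k0 (f s0)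
    rw [h1]
    exact isAlgebraic_algebraMap (algebraMap ℚ k0 (coeff s0.2.1 (extd (Phi ℚ D i0) s0.1)))
  obtain ⟨z, hz⟩ : ∃ z : W × Fm n → ℂ, z = fun p => if p = s0 then c else
      c⁻¹ * (c * (c⁻¹ ^ ey p.2.1 * f p) - φ p) := ⟨_, rfl⟩
  have hz0 : z s0 = c := by rw [hz]; exact if_pos rfl
  have hzs : ∀ p, p ≠ s0 → z p = c⁻¹ * (c * (c⁻¹ ^ ey p.2.1 * f p) - φ p) := by
    intro p hp
    rw [hz]
    exact if_neg hp
  have hfin : Finite (Fm n) := by
    have h1 : Finite {β : Fin (n + 2) →₀ ℕ // β.degree = 3} := by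
      have h2 := Finsupp.finite_of_degree_le (σ := Fin (n + 2)) 3
      exact (h2.subset fun β (hβ : β.degree = 3) => le_of_eq hβ).to_subtype
    exact Finite.of_injective (β := {β : Fin (n + 2) →₀ ℕ // β.degree = 3})
      (fun β => ⟨β.1, β.2.1⟩) fun a b h => Subtype.ext (Subtype.mk.inj h)
  have hzi : AlgebraicIndependent k0 z := by
    refine indep_same k0 hind (fun p => ?_) fun p => ?_
    · have hfm : ∀ p, f p ∈ IntermediateField.adjoin k0 (Set.range f) := fun p =>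
        IntermediateField.subset_adjoin _ _ ⟨p, rfl⟩
      have hcm : c ∈ IntermediateField.adjoin k0 (Set.range f) := sub_mem (hfm _) (hφk _ _)
      by_cases hp : p = s0
      · rw [hp, hz0]
        exact hcm
      · rw [hzs p hp]
        exact mul_mem (inv_mem hcm) (sub_mem (mul_mem hcm (mul_mem (pow_mem (inv_mem hcm) _)
          (hfm p))) (hφk _ _))
    · have hzm : ∀ p, z p ∈ IntermediateField.adjoin k0 (Set.range z) := fun p =>
        IntermediateField.subset_adjoin _ _ ⟨p, rfl⟩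
      have hcm : c ∈ IntermediateField.adjoin k0 (Set.range z) := by
        rw [← hz0]
        exact hzm s0
      by_cases hp : p = s0
      · show f p ∈ _
        have h1 : f p = c + φ p := by
          rw [hp, hc]
          ring
        rw [h1]
        exact add_mem hcm (hφk _ _)
      · show f p ∈ _
        have h1 : f p = c ^ ey p.2.1 * (c⁻¹ * (c * z p + φ p)) := by
          rw [hzs p hp]
          have h2 : c * (c⁻¹ * (c * (c⁻¹ ^ ey p.2.1 * f p) - φ p)) =
              c * (c⁻¹ ^ ey p.2.1 * f p) - φ p := by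
            rw [← mul_assoc, mul_inv_cancel₀ hc0, one_mul]
          rw [h2, sub_add_cancel, ← mul_assoc c⁻¹, inv_mul_cancel₀ hc0, one_mul, ← mul_assoc,
            ← mul_pow, mul_inv_cancel₀ hc0, one_pow, one_mul]
        rw [h1]
        exact mul_mem (pow_mem hcm _) (mul_mem (inv_mem hcm)
          (add_mem (mul_mem hcm (hzm p)) (hφk _ _)))
  obtain ⟨Ω, hΩ, hcΩ, halg, hkΩ, hzΩ⟩ := base_gen k0 z s0 hzi
  rw [hz0] at hcΩ halg
  have hGex : ∀ τ, ∃ G : MvPolynomial (Fin (n + 2)) Ω, τ ∈ W → map (algebraMap Ω ℂ) G =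
      C c⁻¹ * (Fscw c F τ - map (algebraMap ℚ ℂ) (extd (Phi ℚ D i0) τ)) := by
    intro τ
    by_cases hτ : τ ∈ W
    swap
    · exact ⟨0, fun h => absurd h hτ⟩
    have : C c⁻¹ * (Fscw c F τ - map (algebraMap ℚ ℂ) (extd (Phi ℚ D i0) τ)) ∈
        Set.range (map (σ := Fin (n + 2)) (algebraMap Ω ℂ)) := by
      rw [mem_range_map_iff_coeffs_subset]
      intro w hw
      rw [Finset.mem_coe, mem_coeffs_iff] at hw
      obtain ⟨β, hβ, rfl⟩ := hw
      rw [coeff_C_mul, coeff_sub, coeff_map, coeff_Fscw]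
      by_cases h3 : β.degree = 3
      · by_cases h4 : β 0 ≠ 0 ∨ β (Fin.last (n + 1)) ≠ 0
        · by_cases h0 : ((⟨τ, hτ⟩, ⟨β, h3, h4⟩) : W × Fm n) = s0
          · have e1 : τ = 0 := congrArg (fun p => p.1.1) h0
            have e2 : β = β0 := congrArg (fun p => p.2.1) h0
            refine ⟨1, ?_⟩
            rw [map_one, e1, e2, hey0, pow_one, ← mul_assoc c, mul_inv_cancel₀ hc0, one_mul]
            exact (inv_mul_cancel₀ hc0).symm
          · have h5 := hzs (⟨τ, hτ⟩, ⟨β, h3, h4⟩) h0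
            refine ⟨⟨z (⟨τ, hτ⟩, ⟨β, h3, h4⟩), hzΩ _ h0⟩, ?_⟩
            show z (⟨τ, hτ⟩, ⟨β, h3, h4⟩) = _
            rw [h5]
        · push Not at h4
          refine ⟨⟨coeff β (F τ), hkΩ (hk0 τ hτ β h4.1 h4.2)⟩, ?_⟩
          show coeff β (F τ) = _
          rw [phiw_zero D i0 τ β h4.1 h4.2, map_zero, sub_zero,
            show ey β = 0 by unfold ey; rw [h4.1, h4.2], pow_zero, one_mul, ← mul_assoc,
            inv_mul_cancel₀ hc0, one_mul]
      · refine ⟨0, ?_⟩
        rw [map_zero, (hF τ hτ).coeff_eq_zero h3, (extd_hom (fun τ => Phi_hom D i0 τ) τ).coeff_eq_zero h3, map_zero,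
          mul_zero, mul_zero, sub_zero, mul_zero]
    obtain ⟨G, hG⟩ := this
    exact ⟨G, fun _ => hG⟩
  choose G hG using hGex
  refine ⟨c, hc0, Ω, c, G, hΩ, hcΩ, halg, ?_, ?_⟩
  · intro τ hτ β hβ
    by_contra h3
    apply hβ
    have h5 : β.degree ≠ 3 := by
      intro h
      apply h3
      rw [← h, Finsupp.degree_eq_weight_one]
      rfl
    have h4 : (algebraMap Ω ℂ) (coeff β (G τ)) = 0 := by
      rw [← coeff_map, hG τ hτ, coeff_C_mul, coeff_sub, coeff_map, coeff_Fscw,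
        (hF τ hτ).coeff_eq_zero h5, (extd_hom (fun τ => Phi_hom D i0 τ) τ).coeff_eq_zero h5, map_zero, mul_zero,
        mul_zero, sub_zero, mul_zero]
    exact (map_eq_zero _).1 h4
  · intro τ hτ
    rw [hG τ hτ, ← mul_assoc, ← C_mul, mul_inv_cancel₀ hc0, C_1, one_mul]
    ring

end

end Pool.Agent.H900.PW
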