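import Pool.Agent.H900.PN.Dt
import Pool.Agent.H900.P3.Ph

/-! # Families of cubic forms with arbitrary coefficients -/

set_option autoImplicit false
set_option linter.unusedSectionVars false
set_option linter.unusedVariables false

namespace Pool.Agent.H900.PW

open Polynomial FF Pool.Agent.Helper93K9.PAR
open Pool.Agent.H900.PN (fv hom_smul rsum rprod Rd rd_sum rd_mul rd_C rd_aeval)

noncomputable section

/-- the value of a family of forms, `m κ` being the coefficient of the form `F κ` -/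
def fw {J k A : Type} [CommRing k] [CommRing A] [Algebra k A] {r : ℕ} (W : Finset J)
    (m : J → A) (F : J → MvPolynomial (Fin r) k) (y : Fin r → A) : A :=
  ∑ κ ∈ W, m κ * MvPolynomial.aeval y (F κ)

theorem fw_map {J k A B : Type} [CommRing k] [CommRing A] [CommRing B] [Algebra k A]
    [Algebra k B] {r : ℕ} (f : A →ₐ[k] B) (W : Finset J) (m : J → A)
    (F : J → MvPolynomial (Fin r) k) (y : Fin r → A) :
    f (fw W m F y) = fw W (fun κ => f (m κ)) F fun i => f (y i) := by
  unfold fw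
  rw [map_sum]
  refine Finset.sum_congr rfl fun κ _ => ?_
  rw [map_mul, MvPolynomial.comp_aeval_apply]

theorem fw_smul {J k A : Type} [CommRing k] [CommRing A] [Algebra k A] {r : ℕ}
    {W : Finset J} (m : J → A) {F : J → MvPolynomial (Fin r) k}
    (hF : ∀ κ ∈ W, (F κ).IsHomogeneous 3) (c : A) (y : Fin r → A) :
    fw W m F (fun i => c * y i) = c ^ 3 * fw W m F y := by
  unfold fw
  rw [Finset.mul_sum]
  refine Finset.sum_congr rfl fun κ hκ => ?_
  rw [hom_smul (hF κ hκ)]
  ring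

theorem red_fw {Ω E J : Type} [Field Ω] [Field E] [Algebra Ω E] (w : Place Ω E) (W : Finset J)
    {m : J → E} (hm : ∀ κ, w.Reg (m κ)) {r : ℕ}
    (F : J → MvPolynomial (Fin r) Ω) {p : Fin r → E} (hp : ∀ i, w.Reg (p i)) :
    w.Reg (fw W m F p) ∧
      w.red (fw W m F p) = fw W (fun κ => w.red (m κ)) F fun i => w.red (p i) := by
  unfold fw
  refine rsum w W fun κ _ => ?_
  obtain ⟨h3, h4⟩ := LwL.red_aeval w p (F κ) hp
  exact ⟨w.reg_mul (hm κ) h3, by rw [w.red_mul (hm κ) h3, h4]⟩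

theorem rd_fw {Ω E J : Type} [Field Ω] [Field E] [Algebra Ω E] (w : Place Ω E) {ϖ : E}
    (h0 : ϖ ≠ 0) (h1 : w.ord ϖ = 1) {q e : ℤ} (he : 0 < e) (W : Finset J)
    {m : J → E} (hm : ∀ κ, w.Reg (m κ)) {r : ℕ}
    (F : J → MvPolynomial (Fin r) Ω) {y : Fin r → E[X]} {z : Fin r → w.RF[X]}
    (h : ∀ i, Rd w ϖ q e (y i) (z i)) :
    Rd w ϖ q e (fw W (fun κ => C (m κ)) F y) (fw W (fun κ => C (w.red (m κ))) F z) := by
  unfold fw
  exact rd_sum w h0 h1 he _ fun κ _ =>
    rd_mul w h0 h1 he (rd_C w h0 h1 he (hm κ)) (rd_aeval w h0 h1 he _ h)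

/-- the monomial with the exponent `κ` -/
def mon {s : ℕ} {A : Type} [CommRing A] (t : Fin s → A) (κ : Fin s → ℕ) : A := ∏ i, t i ^ κ i

theorem mon_map {s : ℕ} {A B : Type} [CommRing A] [CommRing B] (f : A →+* B) (t : Fin s → A)
    (κ : Fin s → ℕ) : f (mon t κ) = mon (fun i => f (t i)) κ := by
  unfold mon
  rw [map_prod]
  exact Finset.prod_congr rfl fun i _ => map_pow f _ _

theorem mon_reg {Ω E : Type} [Field Ω] [Field E] [Algebra Ω E] (w : Place Ω E) {s : ℕ}
    {t : Fin s → E} (ht : ∀ i, w.Reg (t i)) (κ : Fin s → ℕ) : w.Reg (mon t κ) := by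
  have hp : ∀ (x : E), w.Reg x → ∀ a : ℕ, w.Reg (x ^ a) := by
    intro x hx a
    induction a with
    | zero => rw [pow_zero]; exact w.reg_one
    | succ a ih => rw [pow_succ]; exact w.reg_mul ih hx
  exact (rprod w Finset.univ (f := fun i => t i ^ κ i) (g := fun i => w.red (t i ^ κ i))
    fun i _ => ⟨hp _ (ht i) _, rfl⟩).1

/-- the squarefree members of a set of monomials -/
def sq {s : ℕ} (W : Finset (Fin s → ℕ)) : Finset (Finset (Fin s)) :=
  open Classical in
  (W.filter fun κ => ∀ i, κ i ≤ 1).image fun κ => Finset.univ.filter fun i => κ i = 1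

/-- extension of a family by zero -/
def extd {s : ℕ} {B : Type} [Zero B] (Q : Finset (Fin s) → B) (κ : Fin s → ℕ) : B :=
  open Classical in
  if ∀ i, κ i ≤ 1 then Q (Finset.univ.filter fun i => κ i = 1) else 0

theorem sq_inj {s : ℕ} {κ κ' : Fin s → ℕ} (h : ∀ i, κ i ≤ 1) (h' : ∀ i, κ' i ≤ 1)
    (he : (Finset.univ.filter fun i => κ i = 1) = Finset.univ.filter fun i => κ' i = 1) :
    κ = κ' := by
  funext i
  have h1 : κ i = 1 ↔ κ' i = 1 := by
    have := Finset.ext_iff.1 he i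
    simpa using this
  have h2 := h i
  have h3 := h' i
  omega

theorem sq_card {s : ℕ} (W : Finset (Fin s → ℕ)) :
    (sq W).card = (W.filter fun κ => ∀ i, κ i ≤ 1).card := by
  classical
  unfold sq
  rw [Finset.card_image_of_injOn]
  intro κ hκ κ' hκ' he
  exact sq_inj (Finset.mem_filter.1 (Finset.mem_coe.1 hκ)).2
    (Finset.mem_filter.1 (Finset.mem_coe.1 hκ')).2 he

theorem sq_zero {s : ℕ} {W : Finset (Fin s → ℕ)} (h : (0 : Fin s → ℕ) ∈ W) : ∅ ∈ sq W := by
  classical
  unfold sq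
  refine Finset.mem_image.2 ⟨0, Finset.mem_filter.2 ⟨h, fun i => Nat.zero_le 1⟩, ?_⟩
  ext i
  simp

theorem sq_single {s : ℕ} {W : Finset (Fin s → ℕ)} {i0 : Fin s}
    (h : (Pi.single i0 1 : Fin s → ℕ) ∈ W) : {i0} ∈ sq W := by
  classical
  unfold sq
  refine Finset.mem_image.2 ⟨_, Finset.mem_filter.2 ⟨h, fun i => ?_⟩, ?_⟩
  · by_cases hi : i = i0
    · rw [hi, Pi.single_eq_same]
    · rw [Pi.single_eq_of_ne hi]
      exact Nat.zero_le 1
  · ext i
    rw [Finset.mem_filter, Finset.mem_singleton]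
    constructor
    · rintro ⟨-, hi⟩
      by_contra hne
      rw [Pi.single_eq_of_ne hne] at hi
      exact absurd hi (by norm_num)
    · rintro rfl
      exact ⟨Finset.mem_univ _, Pi.single_eq_same _ _⟩

/-- the value of the extended family -/
theorem fw_extd {s : ℕ} {k A : Type} [CommRing k] [CommRing A] [Algebra k A] {r : ℕ}
    (W : Finset (Fin s → ℕ)) (t : Fin s → A) (Q : Finset (Fin s) → MvPolynomial (Fin r) k)
    (y : Fin r → A) : fw W (mon t) (extd Q) y = fv (sq W) t Q y := by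
  classical
  unfold fw fv sq
  rw [Finset.sum_image (fun κ hκ κ' hκ' he => sq_inj
    (Finset.mem_filter.1 (Finset.mem_coe.1 hκ)).2 (Finset.mem_filter.1 (Finset.mem_coe.1 hκ')).2 he)]
  rw [Finset.sum_filter]
  refine Finset.sum_congr rfl fun κ _ => ?_
  unfold extd
  by_cases h : ∀ i, κ i ≤ 1
  · rw [if_pos h, if_pos h]
    congr 1
    unfold mon
    rw [Finset.prod_filter]
    refine Finset.prod_congr rfl fun i _ => ?_
    have h1 := h i
    by_cases h2 : κ i = 1
    · rw [if_pos h2, h2, pow_one]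
    · rw [if_neg h2, show κ i = 0 by omega, pow_zero]
  · rw [if_neg h, if_neg h, map_zero, mul_zero]

theorem extd_hom {s : ℕ} {k : Type} [CommRing k] {r : ℕ}
    {Q : Finset (Fin s) → MvPolynomial (Fin r) k} (hQ : ∀ τ, (Q τ).IsHomogeneous 3)
    (κ : Fin s → ℕ) : (extd Q κ).IsHomogeneous 3 := by
  unfold extd
  split_ifs
  · exact hQ _
  · exact MvPolynomial.isHomogeneous_zero _ _ _

theorem extd_map {s : ℕ} {k k' : Type} [CommRing k] [CommRing k'] {r : ℕ} (f : k →+* k')
    (Q : Finset (Fin s) → MvPolynomial (Fin r) k) (κ : Fin s → ℕ) :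
    MvPolynomial.map f (extd Q κ) = extd (fun τ => MvPolynomial.map f (Q τ)) κ := by
  unfold extd
  split_ifs
  · rfl
  · exact map_zero _

end

end Pool.Agent.H900.PW
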