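import Pool.Agent.H900.PW.Eq
import Pool.Agent.H900.PW.Nw
import Pool.Agent.H900.PN.Co
import Pool.Agent.H900.PW.Fw

/-! # The theorem over function fields, arbitrary coefficients (helper118 for helper900) -/

set_option autoImplicit false
set_option linter.unusedSectionVars false
set_option linter.unusedVariables false

namespace Pool.Agent.H900.PW

open FF Module Pool.Agent.Helper93K9.PAR
open Pool.Agent.H900.PN
open Pool.Agent.H900.LF

noncomputable section

/-- **The theorem over function fields.** -/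
theorem corew {Ω K E : Type} [Field Ω] [IsAlgClosed Ω] [CharZero Ω] [Field K] [Field E]
    [Algebra Ω K] [Algebra K E] [Algebra Ω E] [IsScalarTower Ω K E] [IsFF Ω K]
    {s n m : ℕ} (D : Dat n (Fin s)) {i0 : Fin s} {j0 : Fin n} (hj0 : D.side j0 = false)
    (hj1 : D.sg j0 = {i0}) {T : Finset (Finset (Fin s))} (hT0 : ∅ ∈ T) (hT1 : {i0} ∈ T)
    (hTD : ∀ j, D.sg j ∈ T) {W : Finset (Fin s → ℕ)}
    {G : (Fin s → ℕ) → MvPolynomial (Fin (n + 2)) Ω}
    (hG : ∀ κ ∈ W, (G κ).IsHomogeneous 3) {c : K} (hc : Transcendental Ω c) (t : Fin s → E)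
    (g : Fin (n + 2) → E) (R : Fin m → E)
    (hg : eqnw T t (Phi Ω D i0) W (mon t) G (algebraMap K E c) g = 0) (hg0 : g 0 ≠ 0)
    (hi : AlgebraicIndependent K (UU t g R)) (hodd : Odd (finrank (Kc K (UU t g R)) E))
    (l : Fin (n + 2) → E)
    (hl : ∀ i j, ¬ AlgebraicIndependent K (Fin.cons (l i / l j) t : Fin (s + 1) → E)) :
    ¬ Relation.ReflTransGen (fun a b : Fin (n + 2) → E => a ≠ 0 ∧ b ≠ 0 ∧
      Lkk (eqnw T (fun i => Polynomial.C (t i)) (Phi Ω D i0) W
        (fun κ => Polynomial.C (mon t κ)) G (Polynomial.C (algebraMap K E c))) a b) g l := by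
  classical
  intro hch
  obtain ⟨SP, hSP, -, hSP3⟩ := FF.zeros (k := Ω) (K := K) hc
  have hfd : FiniteDimensional (IntermediateField.adjoin Ω {c}) K := IsFF.finite hc
  have hpos : 0 < finrank (IntermediateField.adjoin Ω {c}) K := finrank_pos
  have hne : SP.Nonempty := by
    rw [Finset.nonempty_iff_ne_empty]
    rintro rfl
    rw [Finset.sum_empty] at hSP3
    omega
  obtain ⟨P, hP⟩ := hne
  have hPc : 0 < P.ord c := (hSP P).1 hP
  obtain ⟨ϖ, h0, h1⟩ := P.surj
  have hc0 : c ≠ 0 := by
    rintro rfl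
    rw [P.ord_zero] at hPc
    exact lt_irrefl _ hPc
  have hfin : FiniteDimensional (Kc K (UU t g R)) E := by
    apply FiniteDimensional.of_finrank_pos
    obtain ⟨d, hd⟩ := hodd
    omega
  obtain ⟨S, hS, hsum⟩ := Pool.Agent.R845.E3.gfi Ω K E _ P ϖ (UU t g R) h0 h1 hi hfin
  obtain ⟨w, hwS, hwodd⟩ : ∃ w ∈ S, Odd (finrank (Subfield.closure
      ({c : w.RF | ∃ a : K, P.Reg a ∧ w.red (algebraMap K E a) = c} ∪
          Set.range fun j => w.red (UU t g R j))) w.RF) := by
    by_contra hcon
    push Not at hcon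
    have h2 := Finset.even_sum (s := S) (fun w : Place Ω E => (w.ord (algebraMap K E ϖ)).toNat *
        finrank (Subfield.closure ({c : w.RF | ∃ a : K, P.Reg a ∧ w.red (algebraMap K E a) = c} ∪
          Set.range fun j => w.red (UU t g R j))) w.RF) fun w hw =>
      (Nat.not_odd_iff_even.1 (hcon w hw)).mul_left _
    rw [hsum] at h2
    exact (Nat.not_even_iff_odd.2 hodd) h2
  obtain ⟨hwr, hww, hUr, hUg⟩ := (hS w).1 hwS
  have hwc : 0 < w.ord (algebraMap K E c) := ResL.ord_pos P w h0 h1 hwr hww hc0 hPc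
  obtain ⟨r1, r2⟩ := res Ω K E P w ϖ h0 h1 hwr hww
  have hind := (r2 _ (UU t g R) hUr).1.2 hUg
  rw [r1] at hwodd
  -- regularity
  have hUe : ∀ v, UU t g R ((eqv s n m).symm v) = uu t (fun j => g j.castSucc.succ / g 0) R v := by
    intro v
    unfold UU
    rw [Function.comp_apply, Equiv.apply_symm_apply]
  have hur : ∀ v, w.Reg (uu t (fun j => g j.castSucc.succ / g 0) R v) := fun v => by
    rw [← hUe]
    exact hUr _
  have ht : ∀ i, w.Reg (t i) := fun i => hur (Sum.inl i)
  have hx : ∀ j : Fin n, w.Reg (g j.castSucc.succ / g 0) := fun j => hur (Sum.inr (Sum.inl j))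
  set tb : Fin s → w.RF := fun i => w.red (t i) with htb
  set xb : Fin n → w.RF := fun j => w.red (g j.castSucc.succ / g 0) with hxb
  set Rb : Fin m → w.RF := fun l => w.red (R l) with hRb
  have hub : (fun v => w.red (uu t (fun j => g j.castSucc.succ / g 0) R v)) = uu tb xb Rb := by
    funext v
    rcases v with i | j | l
    · rfl
    · rfl
    · rfl
  have hUb : (fun j => w.red (UU t g R j)) = uu tb xb Rb ∘ eqv s n m := by
    rw [← hub]
    rfl
  rw [hUb, algebraicIndependent_equiv] at hind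
  have hran : Set.range (fun j => w.red (UU t g R j)) = Set.range (uu tb xb Rb) := by
    rw [hUb]
    exact (eqv s n m).surjective.range_comp _
  have hoddb : Odd (finrank (IntermediateField.adjoin Ω (Set.range (uu tb xb Rb))) w.RF) := by
    rw [← hran]
    exact hwodd
  -- the relation after scaling
  have hscale : ∀ a : E, a ≠ 0 → eqnw T t (Phi Ω D i0) W (mon t) G (algebraMap K E c)
      (fun i => g i / a) = 0 := by
    intro a ha
    have e1 : ∀ F : Finset (Fin s) → MvPolynomial (Fin (n + 2)) Ω,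
        (∀ τ ∈ T, (F τ).IsHomogeneous 3) → fv T t F (fun i => g i / a) =
          (a⁻¹) ^ 3 * fv T t F g := by
      intro F hF
      rw [← fv_smul t hF]
      congr 1
      funext i
      rw [div_eq_inv_mul]
    have e2 : fw W (mon t) G (fun i => g i / a) = (a⁻¹) ^ 3 * fw W (mon t) G g := by
      rw [← fw_smul (mon t) hG]
      congr 1
      funext i
      rw [div_eq_inv_mul]
    unfold eqnw at hg ⊢
    rw [e1 _ fun τ _ => Phi_hom D i0 τ, e2]
    linear_combination (a⁻¹) ^ 3 * hg
  have hcr : w.Reg (algebraMap K E c) := Or.inr hwc.le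
  have hcz : w.red (algebraMap K E c) = 0 := (w.red_eq_zero_iff hcr).2 (Or.inr hwc)
  have hredeq : ∀ a : E, a ≠ 0 → (∀ i, w.Reg (g i / a)) →
      spp D i0 tb (fun i => w.red (g i / a)) = 0 := by
    intro a ha hr
    have e1 := hscale a ha
    unfold eqnw at e1
    obtain ⟨e2, e3⟩ := red_fv w T ht (Phi Ω D i0) hr
    obtain ⟨e4, e5⟩ := red_fw w W (mon_reg w ht) G hr
    have e6 := w.red_add e2 (w.reg_mul hcr e4)
    rw [e1, w.red_zero, w.red_mul hcr e4, hcz, zero_mul, add_zero, e3,
      fv_spp D i0 hT0 hT1 hTD] at e6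
    exact e6.symm
  -- the last coordinate is regular
  have hlast : w.Reg (g (Fin.last (n + 1)) / g 0) := by
    by_contra hT
    have hT0' : g (Fin.last (n + 1)) / g 0 ≠ 0 := fun h => hT (Or.inl h)
    have hT1' : w.ord (g (Fin.last (n + 1)) / g 0) < 0 := by
      by_contra h
      exact hT (Or.inr (not_lt.1 h))
    have hl0 : g (Fin.last (n + 1)) ≠ 0 := by
      intro h
      rw [h, zero_div] at hT0'
      exact hT0' rfl
    have hsm : ∀ f : E, w.Reg f → w.Reg (f / (g (Fin.last (n + 1)) / g 0)) ∧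
        w.red (f / (g (Fin.last (n + 1)) / g 0)) = 0 := by
      intro f hf
      by_cases hf0 : f = 0
      · rw [hf0, zero_div]
        exact ⟨w.reg_zero, w.red_zero⟩
      · have h1 := (w.reg_iff hf0).1 hf
        have h2 : 0 < w.ord (f / (g (Fin.last (n + 1)) / g 0)) := by
          rw [w.ord_div hf0 hT0']
          omega
        have h3 : w.Reg (f / (g (Fin.last (n + 1)) / g 0)) := Or.inr h2.le
        exact ⟨h3, (w.red_eq_zero_iff h3).2 (Or.inr h2)⟩
    have hq : ∀ i, g i / g (Fin.last (n + 1)) = (g i / g 0) / (g (Fin.last (n + 1)) / g 0) := by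
      intro i
      rw [div_div_div_cancel_right₀ hg0]
    have hall : ∀ i, w.Reg (g i / g (Fin.last (n + 1))) ∧
        (i ≠ Fin.last (n + 1) → w.red (g i / g (Fin.last (n + 1))) = 0) := by
      intro i
      refine TrL.cases3 (P := fun i => w.Reg (g i / g (Fin.last (n + 1))) ∧
        (i ≠ Fin.last (n + 1) → w.red (g i / g (Fin.last (n + 1))) = 0)) ?_ ?_ ?_ i
      · rw [hq, div_self hg0]
        have := hsm 1 w.reg_one
        exact ⟨this.1, fun _ => this.2⟩
      · intro j
        rw [hq]
        have := hsm _ (hx j)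
        exact ⟨this.1, fun _ => this.2⟩
      · rw [div_self hl0]
        exact ⟨w.reg_one, fun h => absurd rfl h⟩
    have h2 := hredeq _ hl0 fun i => (hall i).1
    have e0 : w.red (g 0 / g (Fin.last (n + 1))) = 0 := (hall 0).2 (by
      intro h
      exact absurd (congrArg Fin.val h) (by simp))
    have ej : ∀ j : Fin n, w.red (g j.castSucc.succ / g (Fin.last (n + 1))) = 0 := by
      intro j
      refine (hall _).2 fun h => ?_
      have h3 := congrArg Fin.val h
      simp only [Fin.val_succ, Fin.val_castSucc, Fin.val_last] at h3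
      have := j.isLt
      omega
    have e1 : w.red (g (Fin.last (n + 1)) / g (Fin.last (n + 1))) = 1 := by
      rw [div_self hl0, w.red_one]
    unfold spp spc at h2
    beta_reduce at h2
    rw [e0, e1] at h2
    have hq0 : qf D true tb (fun j => w.red (g j.castSucc.succ / g (Fin.last (n + 1)))) = 0 := by
      unfold qf
      refine Finset.sum_eq_zero fun j _ => ?_
      beta_reduce
      rw [ej]
      split_ifs <;> ring
    rw [hq0] at h2
    norm_num at h2
  set y : w.RF := w.red (g (Fin.last (n + 1)) / g 0) with hy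
  have hallr : ∀ i, w.Reg (g i / g 0) := by
    intro i
    refine TrL.cases3 (P := fun i => w.Reg (g i / g 0)) ?_ hx hlast i
    rw [div_self hg0]
    exact w.reg_one
  have hspc : spc D i0 tb 1 xb y = 0 := by
    have h2 := hredeq _ hg0 hallr
    unfold spp at h2
    beta_reduce at h2
    rw [div_self hg0, w.red_one] at h2
    exact h2
  obtain ⟨e, he⟩ := IsAlgClosed.exists_pow_nat_eq (-1 : Ω) (n := 2) (by norm_num)
  set ε : w.RF := algebraMap Ω w.RF e with hε
  have hε2 : ε ^ 2 = -1 := by
    rw [hε, ← map_pow, he, map_neg, map_one]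
  have hbig := an_res (R := Rb) D i0 hj0 hj1 he hind hspc hoddb
  have hAni : Ani tb := by
    intro u hu
    exact (hbig u 0 (by rw [hu, pf_zero, mul_zero, add_zero])).1
  have hyV : ¬ Vl tb y := by
    rintro ⟨v, hv⟩
    obtain ⟨o, ho⟩ : Vl tb 1 := vl_one
    have h2 := (hbig (fun S => ε * v S) o (by
      rw [pf_smul, ← hv, ← ho, hε2]
      ring)).2
    rw [h2, pf_zero] at ho
    exact one_ne_zero ho
  have htbi : AlgebraicIndependent Ω tb :=
    hind.comp (Sum.inl : Fin s → Sg s n (Fin m)) Sum.inl_injective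
  have hϖE : algebraMap K E ϖ ≠ 0 := by rwa [Ne, map_eq_zero]
  obtain ⟨ϖw, hϖ0, hϖ1⟩ := w.surj
  -- the generic point
  have hstart : ∀ μ, Nrm w g μ → ¬ Tr w ϖw t g μ := by
    intro μ hμ
    have hn : Nrm w (fun i => g i / g 0) 0 := by
      refine ⟨fun i => ?_, 0, ?_, ?_⟩
      · rcases hallr i with h | h
        · exact Or.inl h
        · exact Or.inr h
      · beta_reduce
        rw [div_self hg0]
        exact one_ne_zero
      · beta_reduce
        rw [div_self hg0]
        exact w.ord_one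
    have h2 := nrm_smul w hn hg0
    have hgg : (fun i => g 0 * (g i / g 0)) = g := by
      funext i
      rw [mul_div_cancel₀ _ hg0]
    rw [hgg] at h2
    rw [nrm_unique w hμ h2]
    have h3 := tr_smul (t := t) w hϖ0 hϖ1 hn hg0
    rw [hgg] at h3
    rw [h3]
    unfold Tr
    beta_reduce
    rw [neg_zero, zpow_zero, mul_one, mul_one, div_self hg0, w.red_one, one_mul]
    exact hyV
  -- the chain
  have hchain : g ≠ 0 ∧ l ≠ 0 ∧ ∀ μ, Nrm w l μ → ¬ Tr w ϖw t l μ := by
    clear hl
    induction hch with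
    | refl =>
      have : g ≠ 0 := fun h => hg0 (congrFun h 0)
      exact ⟨this, this, hstart⟩
    | tail _ h ih =>
      rename_i b l' _
      obtain ⟨hb0, hl0, d, Cc, hd, hC, ⟨a1, ha1, e1⟩, b1, hb1, e2⟩ := h
      refine ⟨ih.1, hl0, fun μ hμ hTr => ?_⟩
      obtain ⟨ν, hν⟩ := exists_nrm w hb0
      apply ih.2.2 ν hν
      have n1 : Nrm w (fun i => (Cc i).coeff 0) (ν + w.ord a1) := by
        rw [funext e1]
        exact nrm_smul w hν ha1
      have n2 : Nrm w (fun i => (Cc i).coeff d) (μ + w.ord b1) := by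
        rw [funext e2]
        exact nrm_smul w hμ hb1
      have z1 : (fun i => (Cc i).coeff 0) ≠ 0 := by
        obtain ⟨-, i, hi, -⟩ := n1
        exact fun h => hi (congrFun h i)
      have z2 : (fun i => (Cc i).coeff d) ≠ 0 := by
        obtain ⟨-, i, hi, -⟩ := n2
        exact fun h => hi (congrFun h i)
      have key := newtonw w D hϖ0 hϖ1 ht hAni hε2 hT0 hT1 hTD (mon_reg w ht) hG hcr hcz hC hd z1 z2 n1 n2
      rw [funext e1, funext e2, tr_smul w hϖ0 hϖ1 hν ha1, tr_smul w hϖ0 hϖ1 hμ hb1] at key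
      exact key.2 hTr
  obtain ⟨-, hl0, hend⟩ := hchain
  obtain ⟨μ, hμ⟩ := exists_nrm w hl0
  apply hend μ hμ
  obtain ⟨hμ1, k0, hk0, hk1⟩ := hμ
  have hlr : ∀ i, w.Reg (l i / l k0) := by
    intro i
    by_cases hli : l i = 0
    · rw [hli, zero_div]
      exact w.reg_zero
    · right
      have := (hμ1 i).resolve_left hli
      rw [w.ord_div hli hk0]
      omega
  have hn : Nrm w (fun i => l i / l k0) 0 := by
    refine ⟨fun i => ?_, k0, ?_, ?_⟩
    · rcases hlr i with h | h
      · exact Or.inl h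
      · exact Or.inr h
    · beta_reduce
      rw [div_self hk0]
      exact one_ne_zero
    · beta_reduce
      rw [div_self hk0]
      exact w.ord_one
  have hll : (fun i => l k0 * (l i / l k0)) = l := by
    funext i
    rw [mul_div_cancel₀ _ hk0]
  have h3 := tr_smul (t := t) w hϖ0 hϖ1 hn hk0
  rw [hll, hk1, zero_add] at h3
  rw [h3]
  unfold Tr
  beta_reduce
  rw [neg_zero, zpow_zero, mul_one, mul_one]
  refine vl_alg htbi hAni hε2 ?_
  have halg : ∀ i, IsAlgebraic (IntermediateField.adjoin Ω (Set.range tb))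
      (w.red (l i / l k0)) := by
    intro i
    refine LF.alg_of_dep htbi fun hcon => hl i k0 ?_
    refine (r2 (s + 1) (Fin.cons (l i / l k0) t) ?_).2 ?_
    · intro j
      refine Fin.cases ?_ (fun j => ?_) j
      · exact hlr i
      · exact ht _
    · have h2 : (fun j => w.red ((Fin.cons (l i / l k0) t : Fin (s + 1) → E) j)) =
          Fin.cons (w.red (l i / l k0)) tb := by
        funext j
        refine Fin.cases ?_ (fun j => ?_) j
        · rfl
        · rfl
      rw [h2]
      exact hcon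
  exact (halg _).mul (halg _)

end

end Pool.Agent.H900.PW
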