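import Pool.Agent.H900.PW.Fw
import Pool.Agent.H900.P3.Cu

/-! # Curves on the very general member: error terms with arbitrary coefficients

Adapted (helper84) from `P3/E.lean` (`dom`) and `P3/Cu.lean` (`level`, `loc1`, `curve3`). -/

set_option autoImplicit false
set_option linter.unusedSectionVars false
set_option linter.unusedVariables false

namespace Pool.Agent.H900.PW

open Polynomial
open Pool.Agent.H900.PN (fv)
open Pool.Agent.H900.P3

noncomputable section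

/-- (E) the terms with the coefficient `c` do not matter -/
theorem PW7_dom {Ω E H k J : Type} [Field Ω] [Field E] [Algebra Ω E] [Field k] [AddCommGroup H]
    [LinearOrder H] [IsOrderedAddMonoid H] (L : LTS E H k) (h : H →+ ℚ) (hmono : Monotone h)
    (hconst : ∀ a : Ω, a ≠ 0 → L.v (algebraMap Ω E a) = 0) (W : Finset J)
    {m : J → E} (hm : ∀ κ, m κ ≠ 0 ∧ h (L.v (m κ)) = 0) {c : E} (hc0 : c ≠ 0)
    (hc : 0 < h (L.v c)) {r : ℕ} {G : J → MvPolynomial (Fin r) Ω}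
    (hG : ∀ κ ∈ W, (G κ).IsHomogeneous 3) {γ M : H} {y : Fin r → E[X]}
    (hy : ∀ i, y i = 0 ∨ ∃ l, L.PGe γ l (y i) ∧ h M ≤ 3 * h l) :
    L.PGe γ M (C c * fw W (fun κ => C (m κ)) G y) ∧
      L.psy γ M (C c * fw W (fun κ => C (m κ)) G y) = 0 := by
  have hy' : ∀ i, ∃ l, L.PGe γ l (y i) ∧ h M ≤ 3 * h l := by
    intro i
    rcases hy i with h0 | h1
    · rw [h0]
      rcases le_total (h M) 0 with h2 | h2
      · exact ⟨0, L.pge_zero γ 0, by rw [map_zero]; linarith⟩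
      · exact ⟨M, L.pge_zero γ M, by linarith⟩
    · exact h1
  choose l hl hM using hy'
  unfold fw
  rw [Finset.mul_sum]
  refine DomAux.small_sum L W fun κ hκ => ?_
  have hGκ := hG κ hκ
  rw [MvPolynomial.aeval_def, MvPolynomial.eval₂_eq, Finset.mul_sum, Finset.mul_sum]
  refine DomAux.small_sum L _ fun u hu => ?_
  have hu3 : ∑ i ∈ u.support, u i = 3 := by
    have := hGκ (MvPolynomial.mem_support_iff.1 hu)
    rw [Finsupp.weight_apply] at this
    simpa [Finsupp.sum] using this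
  have h1 : L.PGe γ (L.v c) (C c) := (L.pge_C (Or.inr le_rfl)).1
  have h2 : L.PGe γ (L.v (m κ)) (C (m κ)) := (L.pge_C (Or.inr le_rfl)).1
  have h3 : L.PGe γ 0 (algebraMap Ω E[X] ((G κ).coeff u)) := by
    rw [Polynomial.algebraMap_apply]
    refine (L.pge_C ?_).1
    by_cases h0 : (G κ).coeff u = 0
    · left
      rw [h0, map_zero]
    · right
      rw [hconst _ h0]
  have h4 : L.PGe γ (∑ i ∈ u.support, u i • l i) (∏ i ∈ u.support, y i ^ u i) :=
    DomAux.pge_prod L u.support fun i _ => DomAux.pge_pow L (hl i) (u i)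
  have h5 := (L.pge_mul h1 (L.pge_mul h2 (L.pge_mul h3 h4).1).1).1
  refine DomAux.small_lt L ?_ h5
  by_contra hlt
  have h6 := hmono (not_lt.1 hlt)
  have h7 : h (L.v (m κ)) = 0 := (hm κ).2
  have h8 : h (∑ i ∈ u.support, u i • l i) = ∑ i ∈ u.support, (u i : ℚ) * h (l i) := by
    rw [map_sum]
    refine Finset.sum_congr rfl fun i _ => ?_
    rw [map_nsmul, nsmul_eq_mul]
  have h9 : h M = ∑ i ∈ u.support, (u i : ℚ) * (h M / 3) := by
    rw [← Finset.sum_mul, ← Nat.cast_sum, hu3]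
    push_cast
    ring
  have h10 : ∑ i ∈ u.support, (u i : ℚ) * (h M / 3) ≤ ∑ i ∈ u.support, (u i : ℚ) * h (l i) := by
    refine Finset.sum_le_sum fun i _ => ?_
    refine mul_le_mul_of_nonneg_left ?_ (Nat.cast_nonneg _)
    have := hM i
    linarith
  rw [map_add, map_add, map_add, h7, h8, map_zero] at h6
  linarith


section lev

variable {Ω E H k J : Type} [Field Ω] [Field E] [Algebra Ω E] [Field k] [AddCommGroup H]
    [LinearOrder H] [IsOrderedAddMonoid H] (L : LTS E H k) {Γ : AddSubgroup H}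
    (hΓ : ∀ x : E, x ≠ 0 → L.v x ∈ Γ) (h : H →+ ℚ) (hmono : Monotone h)
    (hconst : ∀ a : Ω, a ≠ 0 → L.v (algebraMap Ω E a) = 0) {s n : ℕ} {t : Fin s → E}
    (ht : ∀ i, t i ≠ 0 ∧ h (L.v (t i)) = 0) {c : E} (hc0 : c ≠ 0) (hc : 0 < h (L.v c))
    {σ : Fin n → Finset (Fin s)} {T : Finset (Finset (Fin s))} (hT0 : ∅ ∈ T)
    (hTσ : ∀ j, σ j ∈ T) {W : Finset J} {m : J → E}
    (hm : ∀ κ, m κ ≠ 0 ∧ h (L.v (m κ)) = 0) {G : J → MvPolynomial (Fin (n + 2)) Ω}
    (hG : ∀ κ ∈ W, (G κ).IsHomogeneous 3) {Cc : Fin (n + 2) → E[X]}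
    (hC : fv T (fun i => C (t i)) (Ph Ω σ) Cc + C c * fw W (fun κ => C (m κ)) G Cc = 0)

include hΓ hmono hconst ht hc0 hc hT0 hTσ hm hG hC

theorem PW7_level {γ ν μ : H} {α : Fin n → H} (hν0 : L.PGe γ ν (Cc 0)) (hν1 : L.PGe γ ν (Cc 1))
    (hμ : μ ≤ 3 • ν) (hα : ∀ j : Fin n, Cc j.succ.succ ≠ 0 → L.PGe γ (α j) (Cc j.succ.succ) ∧
      L.psy γ (α j) (Cc j.succ.succ) ≠ 0 ∧ μ ≤ L.v (∏ i ∈ σ j, t i) + 3 • α j) :
    L.psy γ μ (Cc 0 * Cc 1 * (Cc 0 + Cc 1)) =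
      ∑ j, C (L.ac (∏ i ∈ σ j, t i)) * Bj L α γ μ t σ Cc j ^ 3 ∧
    Lev Γ γ μ (fun j => L.v (∏ i ∈ σ j, t i)) (Bj L α γ μ t σ Cc) := by
  classical
  have hp : ∀ j, ∏ i ∈ σ j, t i ≠ 0 := fun j => Finset.prod_ne_zero_iff.2 fun i _ => (ht i).1
  have hβ : ∀ j, h (L.v (∏ i ∈ σ j, t i)) = 0 := by
    intro j
    rw [L.v_prod _ fun i _ => (ht i).1, map_sum]
    exact Finset.sum_eq_zero fun i _ => (ht i).2
  -- the special terms
  have hY : L.PGe γ μ (Cc 0 * Cc 1 * (Cc 0 + Cc 1)) := by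
    refine L.pge_le hμ ?_
    have h1 := (L.pge_mul (L.pge_mul hν0 hν1).1 (L.pge_add hν0 hν1).1).1
    rw [show (3 : ℕ) • ν = ν + ν + ν by rw [succ_nsmul, two_nsmul]]
    exact h1
  have hterm : ∀ j, L.PGe γ μ (C (∏ i ∈ σ j, t i) * Cc j.succ.succ ^ 3) ∧
      L.psy γ μ (C (∏ i ∈ σ j, t i) * Cc j.succ.succ ^ 3) =
        C (L.ac (∏ i ∈ σ j, t i)) * Bj L α γ μ t σ Cc j ^ 3 := by
    intro j
    by_cases hj : Cc j.succ.succ = 0
    · have h1 : Bj L α γ μ t σ Cc j = 0 := if_neg fun h => h.1 hj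
      rw [hj, h1, zero_pow (by norm_num), zero_pow (by norm_num), mul_zero, mul_zero]
      exact ⟨L.pge_zero _ _, L.psy_zero _ _⟩
    obtain ⟨h1, h2, h3⟩ := hα j hj
    have h4 := L.pge_mul (L.pge_mul h1 h1).1 h1
    have h5 := L.pge_C (γ := γ) (N := L.v (∏ i ∈ σ j, t i)) (a := ∏ i ∈ σ j, t i) (Or.inr le_rfl)
    have h6 := L.pge_mul h5.1 h4.1
    have e1 : L.v (∏ i ∈ σ j, t i) + (α j + α j + α j) = L.v (∏ i ∈ σ j, t i) + 3 • α j := by
      rw [show (3 : ℕ) • α j = α j + α j + α j by rw [succ_nsmul, two_nsmul]]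
    have e2 : C (∏ i ∈ σ j, t i) * (Cc j.succ.succ * Cc j.succ.succ * Cc j.succ.succ) =
        C (∏ i ∈ σ j, t i) * Cc j.succ.succ ^ 3 := by ring
    rw [e1, e2] at h6
    refine ⟨L.pge_le h3 h6.1, ?_⟩
    by_cases h7 : L.v (∏ i ∈ σ j, t i) + 3 • α j = μ
    · have h8 : Bj L α γ μ t σ Cc j = L.psy γ (α j) (Cc j.succ.succ) := if_pos ⟨hj, h7⟩
      rw [h8, ← h7, h6.2, h5.2, h4.2, (L.pge_mul h1 h1).2, L.sy_def _ (hp j) rfl]
      ring
    · have h8 : Bj L α γ μ t σ Cc j = 0 := if_neg fun h => h7 h.2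
      rw [h8, zero_pow (by norm_num), mul_zero]
      exact L.psy_lt (lt_of_le_of_ne h3 (Ne.symm h7)) h6.1
  have hS := L.pge_sum Finset.univ fun j _ => (hterm j).1
  rw [Finset.sum_congr rfl fun j _ => (hterm j).2] at hS
  -- the other terms
  have hD := PW7_dom L h hmono hconst W hm hc0 hc hG (γ := γ) (M := μ) (y := Cc) (by
    intro i
    refine Fin.cases ?_ (fun i => Fin.cases ?_ (fun j => ?_) i) i
    · refine Or.inr ⟨ν, hν0, ?_⟩
      have := hmono hμ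
      rw [map_nsmul, nsmul_eq_mul] at this
      exact_mod_cast this
    · refine Or.inr ⟨ν, hν1, ?_⟩
      have := hmono hμ
      rw [map_nsmul, nsmul_eq_mul] at this
      exact_mod_cast this
    · by_cases hj : Cc j.succ.succ = 0
      · exact Or.inl hj
      · refine Or.inr ⟨α j, (hα j hj).1, ?_⟩
        have := hmono (hα j hj).2.2
        rw [map_add, hβ, zero_add, map_nsmul, nsmul_eq_mul] at this
        exact_mod_cast this)
  refine ⟨?_, ?_⟩
  · have e1 : Cc 0 * Cc 1 * (Cc 0 + Cc 1) + C c * fw W (fun κ => C (m κ)) G Cc =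
        ∑ j : Fin n, C (∏ i ∈ σ j, t i) * Cc j.succ.succ ^ 3 := by
      rw [fv_ph hT0 hTσ] at hC
      unfold spq at hC
      have e2 : ∑ j : Fin n, (∏ i ∈ σ j, C (t i)) * Cc j.succ.succ ^ 3 =
          ∑ j : Fin n, C (∏ i ∈ σ j, t i) * Cc j.succ.succ ^ 3 := by
        refine Finset.sum_congr rfl fun j _ => ?_
        rw [map_prod]
      rw [← e2]
      linear_combination hC
    have h1 := (L.pge_add hY hD.1).2
    rw [e1, hS.2, hD.2, add_zero] at h1
    exact h1.symm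
  · intro j hj
    have h1 : Cc j.succ.succ ≠ 0 ∧ L.v (∏ i ∈ σ j, t i) + 3 • α j = μ := by
      by_contra hcon
      exact hj (if_neg hcon)
    refine ⟨α j, h1.2, fun i hi => ?_⟩
    have h2 : Bj L α γ μ t σ Cc j = L.psy γ (α j) (Cc j.succ.succ) := if_pos h1
    rw [h2, mem_support_iff, LTS.coeff_psy] at hi
    obtain ⟨h3, h4, -⟩ := L.sy_ne hi
    rw [← h4]
    exact hΓ _ h3

theorem PW7_loc1 (hcap : Cap Γ fun j => L.v (∏ i ∈ σ j, t i)) {γ ν : H}
    (hν0 : L.PGe γ ν (Cc 0)) (hν1 : L.PGe γ ν (Cc 1)) {α : Fin n → H}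
    (hα : ∀ j : Fin n, Cc j.succ.succ ≠ 0 → L.PGe γ (α j) (Cc j.succ.succ) ∧
      L.psy γ (α j) (Cc j.succ.succ) ≠ 0) (j : Fin n) (hj : Cc j.succ.succ ≠ 0) :
    3 • ν ≤ L.v (∏ i ∈ σ j, t i) + 3 • α j := by
  classical
  by_contra hcon
  have hcon' := not_le.1 hcon
  obtain ⟨j1, hj1, hmin⟩ := Finset.exists_min_image
    (Finset.univ.filter fun j : Fin n => Cc j.succ.succ ≠ 0)
    (fun j => L.v (∏ i ∈ σ j, t i) + 3 • α j) ⟨j, by simp [hj]⟩
  have hj1' : Cc j1.succ.succ ≠ 0 := (Finset.mem_filter.1 hj1).2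
  set μ := L.v (∏ i ∈ σ j1, t i) + 3 • α j1 with hμ
  have hμν : μ < 3 • ν := lt_of_le_of_lt (hmin j (by simp [hj])) hcon'
  obtain ⟨h1, h2⟩ := PW7_level L hΓ h hmono hconst ht hc0 hc hT0 hTσ hm hG hC hν0 hν1 hμν.le
    (α := α) fun j' hj' => ⟨(hα j' hj').1, (hα j' hj').2, hmin j' (by simp [hj'])⟩
  have h3 : L.psy γ μ (Cc 0 * Cc 1 * (Cc 0 + Cc 1)) = 0 := by
    refine L.psy_lt hμν ?_
    have h1 := (L.pge_mul (L.pge_mul hν0 hν1).1 (L.pge_add hν0 hν1).1).1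
    rw [show (3 : ℕ) • ν = ν + ν + ν by rw [succ_nsmul, two_nsmul]]
    exact h1
  rw [h3] at h1
  refine sum_ne hcap h2 (c := fun j => L.ac (∏ i ∈ σ j, t i)) (fun j => L.ac_ne _
    (Finset.prod_ne_zero_iff.2 fun i _ => (ht i).1)) ⟨j1, ?_⟩ h1.symm
  have h4 : Bj L α γ μ t σ Cc j1 = L.psy γ (α j1) (Cc j1.succ.succ) := if_pos ⟨hj1', rfl⟩
  rw [h4]
  exact (hα j1 hj1').2

end lev

/-- **Nontrivial classes are constant along rational curves.** -/
theorem curve3w {Ω E H k : Type} [Field Ω] [Field E] [Algebra Ω E] [Field k] [AddCommGroup H]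
    [LinearOrder H] [IsOrderedAddMonoid H] (L : LTS E H k) {Γ : AddSubgroup H}
    (hdiv : ∀ n : ℕ, n ≠ 0 → ∀ x : H, ∃ y, n • y = x)
    (hΓ : ∀ x : E, x ≠ 0 → L.v x ∈ Γ) (h : H →+ ℚ) (hmono : Monotone h)
    (hconst : ∀ a : Ω, a ≠ 0 → L.v (algebraMap Ω E a) = 0) {s n : ℕ} {t : Fin s → E}
    (ht : ∀ i, t i ≠ 0 ∧ h (L.v (t i)) = 0) (htc : ∀ i, Cb (L.ac (t i)))
    (hi : ∀ m : Fin s → ℤ, (∃ x ∈ Γ, ∑ i, m i • L.v (t i) = 3 • x) → ∀ i, (3 : ℤ) ∣ m i)
    {c : E} (hc : 0 < h (L.v c)) (hc0 : c ≠ 0)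
    {σ : Fin n → Finset (Fin s)} (hσ : Function.Injective σ) {T : Finset (Finset (Fin s))}
    (hT0 : ∅ ∈ T) (hTσ : ∀ j, σ j ∈ T)
    {J : Type} {W : Finset J} {m : J → E} (hm : ∀ κ, m κ ≠ 0 ∧ h (L.v (m κ)) = 0)
    {G : J → MvPolynomial (Fin (n + 2)) Ω}
    (hG : ∀ κ ∈ W, (G κ).IsHomogeneous 3) {Cc : Fin (n + 2) → E[X]}
    (hC : fv T (fun i => C (t i)) (Ph Ω σ) Cc + C c * fw W (fun κ => C (m κ)) G Cc = 0)
    {d : ℕ} (hd : ∀ i, (Cc i).natDegree ≤ d) (h0 : L.NT ((Cc 0).coeff 0) ((Cc 1).coeff 0))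
    (hld : (fun i => (Cc i).coeff d) ≠ 0) : L.NT ((Cc 0).coeff d) ((Cc 1).coeff d) := by
  classical
  have hcap : Cap Γ fun j => L.v (∏ i ∈ σ j, t i) := cap_of L hΓ (fun i => (ht i).1) hi hσ
  have hp : ∀ j, ∏ i ∈ σ j, t i ≠ 0 := fun j => Finset.prod_ne_zero_iff.2 fun i _ => (ht i).1
  have hvc : 0 < L.v c := by
    by_contra hcon
    have := hmono (not_lt.1 hcon)
    rw [map_zero] at this
    exact absurd hc (not_lt.2 this)
  have hex : ∀ (γ : H) (j : Fin n), ∃ α : H, Cc j.succ.succ ≠ 0 →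
      L.PGe γ α (Cc j.succ.succ) ∧ L.psy γ α (Cc j.succ.succ) ≠ 0 := by
    intro γ j
    by_cases hj : Cc j.succ.succ = 0
    · exact ⟨0, fun h => absurd hj h⟩
    · obtain ⟨α, hα⟩ := L.exists_lev γ hj
      exact ⟨α, fun _ => hα⟩
  obtain ⟨hDeq, hNT⟩ := newton3 L hdiv ⟨_, hvc⟩ hΓ (f := Cc 0) (g := Cc 1) (by
    intro γ N e he heγ hf hg hf0 hg0 htd hcb
    choose α hα using hex γ
    have h1 := PW7_loc1 L hΓ h hmono hconst ht hc0 hc hT0 hTσ hm hG hC hcap hf hg hα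
    obtain ⟨h2, h3⟩ := PW7_level L hΓ h hmono hconst ht hc0 hc hT0 hTσ hm hG hC hf hg le_rfl
      (α := α) fun j hj => ⟨(hα j hj).1, (hα j hj).2, h1 j hj⟩
    have h4 := L.pge_mul (L.pge_mul hf hg).1 (L.pge_add hf hg).1
    rw [(L.pge_mul hf hg).2, (L.pge_add hf hg).2] at h4
    rw [show (3 : ℕ) • N = N + N + N by rw [succ_nsmul, two_nsmul]] at h2 h3
    rw [h4.2] at h2
    rw [← show (3 : ℕ) • N = N + N + N by rw [succ_nsmul, two_nsmul]] at h2 h3
    have hsup : ∀ f : E[X], ∀ i ∈ (L.psy γ N f).support, N - i • γ ∈ Γ := by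
      intro f i hi
      rw [mem_support_iff, LTS.coeff_psy] at hi
      obtain ⟨h5, h6, -⟩ := L.sy_ne hi
      rw [← h6]
      exact hΓ _ h5
    refine exp_step he heγ hcap h3 (c := fun j => L.ac (∏ i ∈ σ j, t i)) (fun j =>
      ⟨L.ac_ne _ (hp j), ?_⟩) hf0 hg0 ?_ (hsup _) (hsup _) h2 htd hcb
    · rw [L.ac_prod]
      exact cb_prod _ fun i _ => htc i
    · intro h5
      apply hcb
      have h6 : L.psy γ N (Cc 0) = -L.psy γ N (Cc 1) := eq_neg_of_add_eq_zero_left h5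
      have h7 : (-L.psy γ N (Cc 1)).trailingCoeff = -(L.psy γ N (Cc 1)).trailingCoeff := by
        unfold trailingCoeff
        rw [natTrailingDegree_neg, coeff_neg]
      rw [h6, h7]
      exact cb_neg _) h0
  set D := (Cc 0).natDegree with hD
  have hDd : D ≤ d := hd 0
  by_cases hlt : D = d
  · have h1 : (Cc 0).coeff d = (Cc 0).leadingCoeff := by rw [← hlt]; rfl
    have h2 : (Cc 1).coeff d = (Cc 1).leadingCoeff := by rw [← hlt, hDeq]; rfl
    rw [h1, h2]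
    exact hNT
  exfalso
  have hlt' : D < d := lt_of_le_of_ne hDd hlt
  have hz0 : (Cc 0).coeff d = 0 := coeff_eq_zero_of_natDegree_lt hlt'
  have hz1 : (Cc 1).coeff d = 0 := coeff_eq_zero_of_natDegree_lt (hDeq ▸ hlt')
  obtain ⟨j, hj⟩ : ∃ j : Fin n, (Cc j.succ.succ).coeff d ≠ 0 := by
    by_contra hcon
    push Not at hcon
    apply hld
    funext i
    refine Fin.cases ?_ (fun i => Fin.cases ?_ (fun j => ?_) i) i
    · exact hz0
    · exact hz1
    · exact hcon j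
  have hj' : Cc j.succ.succ ≠ 0 := by
    intro h
    rw [h, coeff_zero] at hj
    exact hj rfl
  set S : H := ∑ l ∈ Finset.range (D + 1), (|L.v ((Cc 0).coeff l)| + |L.v ((Cc 1).coeff l)|)
    with hS
  set z : H := L.v (∏ i ∈ σ j, t i) + 3 • L.v ((Cc j.succ.succ).coeff d) + 3 • S with hz
  set x : H := |z| + L.v c with hx
  have hx0 : 0 < x := add_pos_of_nonneg_of_pos (abs_nonneg _) hvc
  have hzx : z < x := lt_of_le_of_lt (le_abs_self z) (lt_add_of_pos_right _ hvc)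
  have hSl : ∀ l, l ≤ D → -S ≤ L.v ((Cc 0).coeff l) ∧ -S ≤ L.v ((Cc 1).coeff l) := by
    intro l hl
    have h1 : |L.v ((Cc 0).coeff l)| + |L.v ((Cc 1).coeff l)| ≤ S :=
      Finset.single_le_sum (f := fun l => |L.v ((Cc 0).coeff l)| + |L.v ((Cc 1).coeff l)|)
        (fun _ _ => add_nonneg (abs_nonneg _) (abs_nonneg _))
        (Finset.mem_range.2 (Nat.lt_succ_of_le hl))
    constructor
    · have h2 : |L.v ((Cc 0).coeff l)| ≤ S := le_trans (le_add_of_nonneg_right (abs_nonneg _)) h1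
      exact le_trans (neg_le_neg h2) (neg_abs_le _)
    · have h2 : |L.v ((Cc 1).coeff l)| ≤ S := le_trans (le_add_of_nonneg_left (abs_nonneg _)) h1
      exact le_trans (neg_le_neg h2) (neg_abs_le _)
  have hge : ∀ {f : E[X]}, f.natDegree = D → (∀ l, l ≤ D → -S ≤ L.v (f.coeff l)) →
      L.PGe (-x) (-S - D • x) f := by
    intro f hf hl l
    by_cases hlD : l ≤ D
    · right
      refine le_trans ?_ (hl l hlD)
      rw [smul_neg, sub_neg_eq_add, sub_add_eq_add_sub, sub_le_iff_le_add]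
      exact add_le_add_right (nsmul_le_nsmul_left hx0.le hlD) _
    · left
      exact coeff_eq_zero_of_natDegree_lt (by omega)
  choose α hα using hex (-x)
  have h1 := PW7_loc1 L hΓ h hmono hconst ht hc0 hc hT0 hTσ hm hG hC hcap
    (hge rfl fun l hl => (hSl l hl).1) (hge hDeq.symm fun l hl => (hSl l hl).2) hα j hj'
  have h2 : α j ≤ L.v ((Cc j.succ.succ).coeff d) - d • x := by
    have h3 := ((hα j hj').1 d).resolve_left hj
    rw [smul_neg, sub_neg_eq_add] at h3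
    exact le_sub_iff_add_le.2 h3
  have h3 : 3 • (-S - D • x) ≤ L.v (∏ i ∈ σ j, t i) +
      3 • (L.v ((Cc j.succ.succ).coeff d) - d • x) :=
    le_trans h1 (add_le_add_right (nsmul_le_nsmul_right h2 3) _)
  have h4 : 3 • ((D + 1) • x) ≤ 3 • (d • x) :=
    nsmul_le_nsmul_right (nsmul_le_nsmul_left hx0.le hlt') 3
  have h5 : 3 • x ≤ z := by
    have h6 : 3 • x + (3 • (-S - D • x) + 3 • (d • x)) = 3 • ((D + 1) • x) +
      (3 • (d • x) - 3 • S - 3 • (D • x) - 3 • (D • x)) := by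
      rw [add_smul, one_smul]
      simp only [smul_sub, smul_add, smul_neg]
      abel
    have h7 : z + 3 • (D • x) - 3 • (d • x) = (L.v (∏ i ∈ σ j, t i) +
      3 • (L.v ((Cc j.succ.succ).coeff d) - d • x)) - 3 • (-S - D • x) := by
      rw [hz]
      simp only [smul_sub, smul_neg]
      abel
    have h8 : 0 ≤ z + 3 • (D • x) - 3 • (d • x) := by
      rw [h7]
      exact sub_nonneg.2 h3
    have h9 : 3 • ((D + 1) • x) = 3 • (D • x) + 3 • x := by
      rw [add_smul, one_smul, smul_add]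
    rw [h9] at h4
    have h10 : 0 ≤ z - 3 • x := by
      refine le_trans h8 ?_
      rw [add_sub_assoc, sub_eq_add_neg z]
      refine add_le_add_right ?_ _
      rw [sub_le_iff_le_add]
      have := h4
      calc 3 • (D • x) = (3 • (D • x) + 3 • x) + -(3 • x) := by abel
        _ ≤ 3 • (d • x) + -(3 • x) := add_le_add_left h4 _
        _ = -(3 • x) + 3 • (d • x) := by abel
    exact sub_nonneg.1 h10
  have h6 : x ≤ 3 • x := by
    have : (1 : ℕ) • x ≤ 3 • x := nsmul_le_nsmul_left hx0.le (by norm_num)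
    rwa [one_smul] at this
  exact absurd (lt_of_lt_of_le hzx (h6.trans h5)) (lt_irrefl _)

end

end Pool.Agent.H900.PW
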