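import Pool.Agent.H900.PW.Fw

set_option autoImplicit false

namespace Pool.Agent.H900.PW

open Pool.Agent.H900.PN (fv)

noncomputable section

/-- the equation -/
def eqnw {ι J k A : Type} [CommRing k] [CommRing A] [Algebra k A] {r : ℕ} (T : Finset (Finset ι))
    (t : ι → A) (F : Finset ι → MvPolynomial (Fin r) k) (W : Finset J) (m : J → A)
    (G : J → MvPolynomial (Fin r) k) (c : A) (y : Fin r → A) : A :=
  fv T t F y + c * fw W m G y

end

end Pool.Agent.H900.PW
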