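import Pool.Agent.H900.PW.Tc
import Pool.Agent.H900.PW.Fw
import Pool.Agent.H900.PN.Mn

/-! # The main theorem for families with arbitrary monomial coefficients -/

set_option autoImplicit false
set_option linter.unusedSectionVars false
set_option linter.unusedVariables false

namespace Pool.Agent.H900.PW

open MvPolynomial FF Module Pool.Agent.Helper93K9.PAR Pool.Agent.H900.LF
open Pool.Agent.H900.PN (fv Dat Phi Tr Nrm Ani Lkk UU uu eqv)

noncomputable section


section famw

/-- the generic member of the family -/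
def famw {s n : ℕ} (W : Finset (Fin s → ℕ))
    (F : (Fin s → ℕ) → MvPolynomial (Fin (n + 2)) ℂ) : MvPolynomial (Fin (n + 2)) (Kt s) :=
  ∑ κ ∈ W, MvPolynomial.C (mon (Pool.Agent.X328.FD.tf s) κ) *
    MvPolynomial.map (algebraMap ℂ (Kt s)) (F κ)

theorem aeval_famw {s n : ℕ} (W : Finset (Fin s → ℕ))
    (F : (Fin s → ℕ) → MvPolynomial (Fin (n + 2)) ℂ) {A : Type} [CommRing A]
    [Algebra (Kt s) A] [Algebra ℂ A] [IsScalarTower ℂ (Kt s) A] (y : Fin (n + 2) → A) :
    MvPolynomial.aeval y (famw W F) =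
      fw W (mon fun i => algebraMap (Kt s) A (Pool.Agent.X328.FD.tf s i)) F y := by
  unfold famw fw
  rw [map_sum]
  refine Finset.sum_congr rfl fun κ _ => ?_
  rw [map_mul, aeval_C, mon_map, aeval_map_algebraMap]

theorem famw_hom {s n : ℕ} {W : Finset (Fin s → ℕ)}
    {F : (Fin s → ℕ) → MvPolynomial (Fin (n + 2)) ℂ} (hF : ∀ κ ∈ W, (F κ).IsHomogeneous 3) :
    (famw W F).IsHomogeneous 3 := by
  unfold famw
  refine IsHomogeneous.sum _ _ _ fun κ hκ => ?_
  have h := (isHomogeneous_C (Fin (n + 2)) (mon (Pool.Agent.X328.FD.tf s) κ)).mul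
    ((hF κ hκ).map (algebraMap ℂ (Kt s)))
  rwa [zero_add] at h

theorem famw_coeff {s n : ℕ} {W : Finset (Fin s → ℕ)} (hW0 : (0 : Fin s → ℕ) ∈ W)
    {F : (Fin s → ℕ) → MvPolynomial (Fin (n + 2)) ℂ} (β : Fin (n + 2) →₀ ℕ)
    (h : MvPolynomial.coeff β (F 0) ≠ 0) : MvPolynomial.coeff β (famw W F) ≠ 0 := by
  classical
  let p : MvPolynomial (Fin s) ℂ := ∑ κ ∈ W, mon X κ * C (coeff β (F κ))
  have h1 : coeff β (famw W F) = algebraMap (MvPolynomial (Fin s) ℂ) (Kt s) p := by
    unfold famw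
    rw [coeff_sum, map_sum]
    refine Finset.sum_congr rfl fun κ _ => ?_
    rw [coeff_C_mul, coeff_map, map_mul, mon_map]
    rfl
  rw [h1, Ne, IsFractionRing.to_map_eq_zero_iff]
  intro hp
  have h2 : eval (0 : Fin s → ℂ) p = 0 := by rw [hp, map_zero]
  have h3 : eval (0 : Fin s → ℂ) p = coeff β (F 0) := by
    simp only [p, map_sum, map_mul, mon_map, eval_X, eval_C, Pi.zero_apply]
    rw [Finset.sum_eq_single 0]
    · unfold mon
      simp
    · intro κ _ hκ
      obtain ⟨i, hi⟩ := Function.ne_iff.1 hκ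
      rw [Pi.zero_apply] at hi
      have h4 : mon (fun _ : Fin s => (0 : ℂ)) κ = 0 := by
        unfold mon
        exact Finset.prod_eq_zero (Finset.mem_univ i) (zero_pow hi)
      rw [h4, zero_mul]
    · intro h
      exact absurd hW0 h
  exact h (h3.symm.trans h2)

end famw

theorem main_oddw {s n m : ℕ} (D : Dat n (Fin s)) {i0 : Fin s} {j0 : Fin n}
    (hj0 : D.side j0 = false) (hj1 : D.sg j0 = {i0}) {W : Finset (Fin s → ℕ)}
    (hW0 : (0 : Fin s → ℕ) ∈ W) (hT1 : {i0} ∈ sq W) (hTD : ∀ j, D.sg j ∈ sq W)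
    {F : (Fin s → ℕ) → MvPolynomial (Fin (n + 2)) ℂ} (hF : ∀ κ ∈ W, (F κ).IsHomogeneous 3)
    (hind : AlgebraicIndependent ℚ (fun p : W × {β : Fin (n + 2) →₀ ℕ // β.degree = 3} =>
      MvPolynomial.coeff p.2.1 (F p.1)))
    {M : Type} [Field M] [Algebra (Kt s) M] (g : Fin (n + 2) → M) (R : Fin m → M)
    (hg : MvPolynomial.aeval g (famw W F) = 0) (hg0 : g 0 ≠ 0)
    (hi : AlgebraicIndependent (Kt s)
      (Sum.elim (fun j : Fin n => g j.castSucc.succ / g 0) R))
    (hodd : Odd (finrank (IntermediateField.adjoin (Kt s)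
      (Set.range (Sum.elim (fun j : Fin n => g j.castSucc.succ / g 0) R))) M))
    (l : Fin (n + 2) → M) (hl : ∀ i, IsAlgebraic (Kt s) (l i)) :
    ¬ Relation.ReflTransGen (LF.Joined (famw W F)) g l := by
  classical
  intro hch
  let _ : Algebra ℂ M := ((algebraMap (Kt s) M).comp (algebraMap ℂ (Kt s))).toAlgebra
  have _ : IsScalarTower ℂ (Kt s) M := IsScalarTower.of_algebraMap_eq fun _ => rfl
  set t : Fin s → M := fun i => algebraMap (Kt s) M (Pool.Agent.X328.FD.tf s i) with ht
  set S : Set M := Set.range (Sum.elim (fun j : Fin n => g j.castSucc.succ / g 0) R) with hS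
  have htop : (IsScalarTower.toAlgHom ℂ (Kt s) M).fieldRange =
      IntermediateField.adjoin ℂ (Set.range t) := by
    have h1 : IntermediateField.adjoin ℂ (Set.range (Pool.Agent.X328.FD.tf s)) = ⊤ :=
      Pool.Agent.X328.FD.tf_top
    rw [AlgHom.fieldRange_eq_map, ← h1, IntermediateField.adjoin_map, ← Set.range_comp]
    rfl
  have hranU : Set.range (UU t g R) = Set.range t ∪ S := by
    unfold UU
    rw [(eqv s n m).surjective.range_comp]
    exact Set.Sum.elim_range _ _
  have hres : (IntermediateField.adjoin (Kt s) S).restrictScalars ℂ = Kc ℂ (UU t g R) := by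
    rw [Pool.Agent.X328.FD.res_type, htop, sup_comm, ← IntermediateField.adjoin_union,
      Set.union_comm, ← hranU]
  have hodd' : Odd (finrank (Kc ℂ (UU t g R)) M) := by
    rw [← hres]
    exact hodd
  have hiU : AlgebraicIndependent ℂ (UU t g R) := by
    unfold UU
    rw [algebraicIndependent_equiv]
    have h1 := AlgebraicIndependent.sumElim_comp (Pool.Agent.X328.FD.tf_indep (m := s)) hi
    have h2 : uu t (fun j => g j.castSucc.succ / g 0) R =
        (Sum.elim (Sum.elim (fun j : Fin n => g j.castSucc.succ / g 0) R)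
          (algebraMap (Kt s) M ∘ Pool.Agent.X328.FD.tf s)) ∘ Equiv.sumComm _ _ := by
      funext v
      rcases v with v | v
      · rfl
      · rfl
    rw [h2, algebraicIndependent_equiv]
    exact h1
  have halg' : ∀ z : M, IsAlgebraic (Kt s) z → IsAlgebraic
      (IntermediateField.adjoin ℂ (Set.range t)) z := by
    intro z hz
    rw [← htop]
    let f : Kt s →+* (IsScalarTower.toAlgHom ℂ (Kt s) M).fieldRange :=
      (algebraMap (Kt s) M).codRestrict (IsScalarTower.toAlgHom ℂ (Kt s) M).fieldRange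
        fun a => ⟨a, rfl⟩
    obtain ⟨P, hP, hPz⟩ := hz
    refine ⟨P.map f, ?_, ?_⟩
    · rwa [Ne, Polynomial.map_eq_zero]
    · rw [Polynomial.aeval_def, Polynomial.eval₂_map]
      exact hPz
  refine over_Cw D hj0 hj1 hW0 hT1 hTD hF hind t g R ?_ hg0 hiU hodd' l
    (fun i j => dep_of_alg (halg' _ ?_)) ?_
  · rw [← hg, aeval_famw]
  · rw [div_eq_mul_inv]
    exact (hl i).mul (hl j).inv
  · refine Relation.ReflTransGen.mono (fun a b' h => ?_) _ _ hch
    obtain ⟨ha, hb', d, Cc, hd, hC, e1, e2⟩ := h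
    refine ⟨ha, hb', d, Cc, hd, ?_, e1, e2⟩
    have _ : IsScalarTower ℂ (Kt s) (Polynomial M) := IsScalarTower.of_algebraMap_eq fun _ => rfl
    rw [← hC, aeval_famw]
    have e3 : (fun κ : Fin s → ℕ => Polynomial.C (mon t κ)) =
        mon fun i => algebraMap (Kt s) (Polynomial M) (Pool.Agent.X328.FD.tf s i) := by
      funext κ
      rw [mon_map]
      rfl
    rw [e3]

end

end Pool.Agent.H900.PW
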