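import Pool.Agent.H900.P3.Fin
import Pool.Agent.H900.PW.Ir
import Pool.Agent.H900.PW.Mn3

/-! # The primes two and three together, for arbitrary sets of monomials -/

set_option autoImplicit false
set_option linter.unusedSectionVars false
set_option linter.unusedVariables false

namespace Pool.Agent.H900.PW

open MvPolynomial FF Module Pool.Agent.Helper93K9.PAR Pool.Agent.H900.LF

noncomputable section

/-- **The main theorem for the prime two.** -/
theorem main_twow {s n m : ℕ} {W : Finset (Fin s → ℕ)} (hn : 1 ≤ n)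
    (hW : n + 1 ≤ 2 * (W.filter fun κ => ∀ i, κ i ≤ 1).card)
    (hW0 : (0 : Fin s → ℕ) ∈ W) (hW1 : ∃ i, (Pi.single i 1 : Fin s → ℕ) ∈ W)
    {F : (Fin s → ℕ) → MvPolynomial (Fin (n + 2)) ℂ} (hF : ∀ κ ∈ W, (F κ).IsHomogeneous 3)
    (hind : AlgebraicIndependent ℚ (fun p : W × {β : Fin (n + 2) →₀ ℕ // β.degree = 3} =>
      coeff p.2.1 (F p.1)))
    {M : Type} [Field M] [Algebra (Kt s) M] (g : Fin (n + 2) → M) (R : Fin m → M)
    (hg0 : g ≠ 0) (hg : aeval g (famw W F) = 0) {ι' : Type} {y : ι' → M}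
    (hy : AlgebraicIndependent (Kt s) y) (hc : ((n + m : ℕ) : Cardinal) ≤ Cardinal.mk ι')
    (hodd : Odd (finrank (IntermediateField.adjoin (Kt s)
      ({z | ∃ i j, z = g i / g j} ∪ Set.range R)) M))
    (l : Fin (n + 2) → M) (hl : ∀ i, IsAlgebraic (Kt s) (l i)) :
    ¬ Relation.ReflTransGen (Joined (famw W F)) g l := by
  obtain ⟨i0, hi0⟩ := hW1
  have hT0 := sq_zero hW0
  have hT1 := sq_single hi0
  obtain ⟨D, j0, hj0, hj1, hTD⟩ := Pool.Agent.H900.PN.exists_dat hT0 hT1 hn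
    (by rw [sq_card]; exact hW)
  exact main_auxw D hj0 hj1 hW0 hT1 hTD hF hind g R hg0 hg hy hc hodd l hl

/-- **The main theorem for the degrees divisible by six.** -/
theorem main_sixw {s n m : ℕ} {W : Finset (Fin s → ℕ)} (hn : 1 ≤ n)
    (hW : n ≤ (W.filter fun κ => ∀ i, κ i ≤ 1).card)
    (hW0 : (0 : Fin s → ℕ) ∈ W) (hW1 : ∃ i, (Pi.single i 1 : Fin s → ℕ) ∈ W)
    {F : (Fin s → ℕ) → MvPolynomial (Fin (n + 2)) ℂ} (hF : ∀ κ ∈ W, (F κ).IsHomogeneous 3)
    (hind : AlgebraicIndependent ℚ (fun p : W × {β : Fin (n + 2) →₀ ℕ // β.degree = 3} =>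
      coeff p.2.1 (F p.1)))
    {M : Type} [Field M] [Algebra (Kt s) M] (g : Fin (n + 2) → M) (R : Fin m → M)
    (hg0 : g ≠ 0) (hg : aeval g (famw W F) = 0) {ι' : Type} {y : ι' → M}
    (hy : AlgebraicIndependent (Kt s) y) (hc : ((n + m : ℕ) : Cardinal) ≤ Cardinal.mk ι')
    (h6 : ¬ 6 ∣ finrank (IntermediateField.adjoin (Kt s)
      ({z | ∃ i j, z = g i / g j} ∪ Set.range R)) M)
    (l : Fin (n + 2) → M) (hl : ∀ i, IsAlgebraic (Kt s) (l i)) :
    ¬ Relation.ReflTransGen (Joined (famw W F)) g l := by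
  classical
  have h2 : n + 1 ≤ 2 * (W.filter fun κ => ∀ i, κ i ≤ 1).card := by omega
  by_cases hodd : Odd (finrank (IntermediateField.adjoin (Kt s)
      ({z | ∃ i j, z = g i / g j} ∪ Set.range R)) M)
  · exact main_twow hn h2 hW0 hW1 hF hind g R hg0 hg hy hc hodd l hl
  have h3 : ¬ 3 ∣ finrank (IntermediateField.adjoin (Kt s)
      ({z | ∃ i j, z = g i / g j} ∪ Set.range R)) M := by
    intro h3
    obtain ⟨a, ha⟩ := Nat.not_odd_iff_even.1 hodd
    apply h6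
    omega
  obtain ⟨i0, hi0⟩ := hW1
  have hT0 := sq_zero hW0
  have hT1 := sq_single hi0
  obtain ⟨D, j0, hj0, hj1, hTD⟩ := Pool.Agent.H900.PN.exists_dat hT0 hT1 hn
    (by rw [sq_card]; exact h2)
  have hirr := famw_irr D hj0 hj1 hW0 hT1 hTD hF hind
  obtain ⟨N, rfl⟩ : ∃ N, n = N + 1 := ⟨n - 1, by omega⟩
  obtain ⟨σ, hσ, hσl, hTσ⟩ := Pool.Agent.H900.P3.exists_sig hT0 (by rw [sq_card]; exact hW)
  exact main_aux3w hσ hσl hW0 hTσ hF hind hirr g R hg0 hg hy hc h3 l hl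

end

end Pool.Agent.H900.PW
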