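import Pool.Agent.H900.PW.J6

/-! # Very general families of cubics have parametrizations of degree at most six -/

set_option autoImplicit false
set_option linter.unusedSectionVars false
set_option linter.unusedVariables false

namespace Pool.Agent.H900.PW

open MvPolynomial Module Pool.Agent.H900.X6

noncomputable section

/-- the parameters -/
def tp (s : ℕ) (j : Fin s) : Kp s := algebraMap (MvPolynomial (Fin s) ℂ) (Kp s) (X j)

/-- the family over the field of the parameters -/
def fmw {s n : ℕ} {W : Finset (Fin s → ℕ)}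
    (F : {κ // κ ∈ W} → MvPolynomial (Fin (n + 2)) ℂ) : MvPolynomial (Fin (n + 2)) (Kp s) :=
  ∑ κ : {κ // κ ∈ W}, C (mon (tp s) κ.1) * map (algebraMap ℂ (Kp s)) (F κ)

theorem fmw_subst {s n : ℕ} {W : Finset (Fin s → ℕ)} (p : Fin (n + 2) → ℂ)
    (F : {κ // κ ∈ W} → MvPolynomial (Fin (n + 2)) ℂ) :
    fmw (fun τ => subst p (F τ)) = subst (fun i => algebraMap ℂ (Kp s) (p i)) (fmw F) := by
  unfold fmw
  rw [subst_add']
  refine Finset.sum_congr rfl fun τ _ => ?_
  rw [subst_map]

theorem fmw_hom {s n : ℕ} {W : Finset (Fin s → ℕ)}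
    {F : {κ // κ ∈ W} → MvPolynomial (Fin (n + 2)) ℂ} (hF : ∀ τ, (F τ).IsHomogeneous 3) :
    (fmw F : MvPolynomial (Fin (n + 2)) (Kp s)).IsHomogeneous 3 := by
  unfold fmw
  refine IsHomogeneous.sum _ _ _ fun τ _ => ?_
  have := (isHomogeneous_C (Fin (n + 2)) (mon (tp s) τ.1)).mul ((hF τ).map (algebraMap ℂ (Kp s)))
  simpa using this

theorem fmw_e0 {s n : ℕ} {W : Finset (Fin s → ℕ)}
    {F : {κ // κ ∈ W} → MvPolynomial (Fin (n + 2)) ℂ} (hF : ∀ τ, eval (e0 n ℂ) (F τ) = 0) :
    eval (e0 n (Kp s)) (fmw F) = 0 := by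
  unfold fmw
  rw [map_sum]
  refine Finset.sum_eq_zero fun τ _ => ?_
  rw [map_mul]
  have h1 : (e0 n (Kp s)) = fun i => algebraMap ℂ (Kp s) (e0 n ℂ i) := by
    funext i
    unfold e0
    by_cases hi : i = 0
    · subst hi; simp
    · simp [hi]
  have h2 : eval (e0 n (Kp s)) (map (algebraMap ℂ (Kp s)) (F τ)) =
      algebraMap ℂ (Kp s) (eval (e0 n ℂ) (F τ)) := by
    rw [h1, eval_map]
    exact (MvPolynomial.eval₂_comp_left (algebraMap ℂ (Kp s)) (RingHom.id ℂ) (e0 n ℂ) (F τ)).symm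
  rw [h2, hF, map_zero, mul_zero]

theorem fmw_NN {s n : ℕ} {W : Finset (Fin s → ℕ)} (h0 : (0 : Fin s → ℕ) ∈ W) (hn : 2 ≤ n)
    {F : {κ // κ ∈ W} → MvPolynomial (Fin (n + 2)) ℂ} (hF : ∀ τ, (F τ).IsHomogeneous 3)
    (hc : ∀ τ, coeff (Finsupp.single 0 3) (F τ) = 0)
    (hind : AlgebraicIndependent ℚ
      (fun q : {κ // κ ∈ W} × Mon' n => coeff q.2.1 (F q.1)))
    {M : Type} [Field M] [Algebra (Kp s) M] {z : Fin n → M}
    (hz : AlgebraicIndependent (Kp s) z) :
    NN (map (algebraMap (Kp s) M) (fmw F)) (z ⟨0, by omega⟩) z ≠ 0 := by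
  have hcz : CharZero M := charZero_of_injective_algebraMap (algebraMap (Kp s) M).injective
  refine NN_gen hn ((fmw_hom hF).map _) ?_ z ?_
  · rw [coeff_map]
    have h1 : coeff (Finsupp.single 0 3) (fmw F : MvPolynomial (Fin (n + 2)) (Kp s)) = 0 := by
      unfold fmw
      rw [coeff_sum]
      refine Finset.sum_eq_zero fun τ _ => ?_
      rw [coeff_C_mul, coeff_map, hc, map_zero, mul_zero]
    rw [h1, map_zero]
  · have h1 := indep_famw h0 hind hz
    have h2 : map (algebraMap (Kp s) M) (fmw F) = (∑ τ : {κ // κ ∈ W},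
        C (algebraMap (FractionRing (MvPolynomial (Fin s) ℂ)) M
          (mon (fun j => algebraMap (MvPolynomial (Fin s) ℂ) (FractionRing (MvPolynomial (Fin s) ℂ)) (X j)) τ.1)) *
        map ((algebraMap (FractionRing (MvPolynomial (Fin s) ℂ)) M).comp
          (algebraMap ℂ (FractionRing (MvPolynomial (Fin s) ℂ)))) (F τ)) := by
      unfold fmw
      rw [map_sum]
      refine Finset.sum_congr rfl fun τ _ => ?_
      rw [map_mul, map_C, map_map]
      rfl
    rw [h2]
    exact h1

/-- **A parametrization of degree at most six.** -/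
theorem attainedw {s n : ℕ} {W : Finset (Fin s → ℕ)} (h0 : (0 : Fin s → ℕ) ∈ W) (hn : 2 ≤ n)
    (hT : W.card ≤ n + 1) {F : {κ // κ ∈ W} → MvPolynomial (Fin (n + 2)) ℂ}
    (hF : ∀ τ, (F τ).IsHomogeneous 3)
    (hind : AlgebraicIndependent ℚ
      (fun q : {κ // κ ∈ W} × {β : Fin (n + 2) →₀ ℕ // β.degree = 3} => coeff q.2.1 (F q.1))) :
    ∃ g : Fin (n + 2) → FractionRing (MvPolynomial (Fin n) (Kp s)), g ≠ 0 ∧
      aeval g (fmw F) = 0 ∧
      0 < finrank (IntermediateField.adjoin (Kp s) {y | ∃ i j, y = g i / g j})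
        (FractionRing (MvPolynomial (Fin n) (Kp s))) ∧
      finrank (IntermediateField.adjoin (Kp s) {y | ∃ i j, y = g i / g j})
        (FractionRing (MvPolynomial (Fin n) (Kp s))) ≤ 6 := by
  classical
  obtain ⟨σ, p1, hσσ, hp10, hev1, hind2⟩ := exists_coord (by rw [Fintype.card_coe]; exact hT)
    hF hind
  have hF1 : ∀ τ, (rename σ (F τ)).IsHomogeneous 3 := fun τ => (hF τ).rename_isHomogeneous
  set M := FractionRing (MvPolynomial (Fin n) (Kp s)) with hM
  have hN := fmw_NN h0 hn (F := fun τ => subst p1 (rename σ (F τ)))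
    (fun τ => subst_hom p1 (hF1 τ))
    (fun τ => by rw [subst_coeff hp10 (hF1 τ), hev1]) hind2 (z_indep n (Kp s))
  have hf2 := fmw_hom (W := W) (s := s) (F := fun τ => subst p1 (rename σ (F τ)))
    (fun τ => subst_hom p1 (hF1 τ))
  have hf20 := fmw_e0 (W := W) (s := s) (F := fun τ => subst p1 (rename σ (F τ)))
    (fun τ => by rw [eval_e0_subst hp10, hev1])
  obtain ⟨hg0, hgf, hg1, hg6⟩ := fin_le hn hf2 hf20 _ (z_top n (Kp s)) hN
  generalize gg (map (algebraMap (Kp s) (FractionRing (MvPolynomial (Fin n) (Kp s))))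
    (fmw fun τ => subst p1 (rename σ (F τ)))) _ _ = g2 at hg0 hgf hg1 hg6
  let h : Fin (n + 2) → M := fun i => if i = 0 then g2 0 else
    g2 i + algebraMap (Kp s) M (algebraMap ℂ (Kp s) (p1 i)) * g2 0
  have hfield := subst_field (k := Kp s) (fun i => algebraMap ℂ (Kp s) (p1 i)) (g := g2) (h := h)
    (fun i => rfl) hg0
  have hset : {y | ∃ i j, y = (fun i => h (σ i)) i / (fun i => h (σ i)) j} =
      {y | ∃ i j, y = h i / h j} := by
    ext y
    constructor
    · rintro ⟨i, j, rfl⟩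
      exact ⟨σ i, σ j, rfl⟩
    · rintro ⟨i, j, rfl⟩
      exact ⟨σ i, σ j, by simp only [hσσ]⟩
  refine ⟨fun i => h (σ i), ?_, ?_, ?_, ?_⟩
  · intro hcon
    apply hg0
    have h1 : ∀ i, h i = 0 := by
      intro i
      have := congrFun hcon (σ i)
      simp only [hσσ] at this
      exact this
    have h2 : g2 0 = 0 := by
      have := h1 0
      simpa [h] using this
    funext i
    by_cases hi : i = 0
    · rw [hi]; exact h2
    · have := h1 i
      simp only [h, if_neg hi, h2, mul_zero, add_zero] at this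
      exact this
  · have h1 : aeval h (fmw (fun τ => rename σ (F τ))) = 0 := by
      rw [← hgf, fmw_subst]
      exact subst_point (fun i => algebraMap ℂ (Kp s) (p1 i)) _ g2
    have h2 : fmw (fun τ => rename σ (F τ)) = rename σ (fmw F : MvPolynomial _ (Kp s)) := by
      unfold fmw
      rw [map_sum]
      refine Finset.sum_congr rfl fun τ _ => ?_
      rw [map_mul, rename_C]
      congr 1
      exact map_rename _ _ _
    rw [h2, aeval_rename] at h1
    exact h1
  · rw [hset, hfield]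
    exact hg1
  · rw [hset, hfield]
    exact hg6

end

end Pool.Agent.H900.PW
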