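import Pool.Agent.H900.PW.Fw
import Pool.Agent.H900.X6.Fn

set_option autoImplicit false

namespace Pool.Agent.H900.PW

open MvPolynomial Module Pool.Agent.H900.X6

noncomputable section

variable {n : ℕ}

/-- the coefficients as polynomials in the parameters -/
def PWJ_c {s : ℕ} {W : Finset (Fin s → ℕ)}
    (F : {κ // κ ∈ W} → MvPolynomial (Fin (n + 2)) ℂ) (β : Mon' n) : MvPolynomial (Fin s) ℂ :=
  ∑ κ : {κ // κ ∈ W}, C (coeff β.1 (F κ)) * mon X κ.1

/-- the value of the coefficients at the origin -/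
theorem PWJ_eval {s : ℕ} {W : Finset (Fin s → ℕ)} (hW : (0 : Fin s → ℕ) ∈ W)
    (F : {κ // κ ∈ W} → MvPolynomial (Fin (n + 2)) ℂ) (β : Mon' n) :
    eval (0 : Fin s → ℂ) (PWJ_c F β) = coeff β.1 (F ⟨0, hW⟩) := by
  unfold PWJ_c
  rw [map_sum, Finset.sum_eq_single (⟨0, hW⟩ : {κ // κ ∈ W})]
  · rw [map_mul, eval_C, mon_map]
    have h1 : mon (fun i => (eval (0 : Fin s → ℂ)) (X i)) (0 : Fin s → ℕ) = 1 := by
      unfold mon
      exact Finset.prod_eq_one fun i _ => pow_zero _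
    show coeff β.1 (F ⟨0, hW⟩) * mon (fun i => (eval (0 : Fin s → ℂ)) (X i)) (0 : Fin s → ℕ) = _
    rw [h1, mul_one]
  · intro κ _ hκ
    obtain ⟨j, hj⟩ : ∃ j, κ.1 j ≠ 0 := by
      by_contra hcon
      push Not at hcon
      exact hκ (Subtype.ext (funext hcon))
    rw [map_mul, mon_map]
    unfold mon
    rw [Finset.prod_eq_zero (Finset.mem_univ j) (by
      beta_reduce
      rw [eval_X, Pi.zero_apply, zero_pow hj]), mul_zero]
  · intro h
    exact absurd (Finset.mem_univ _) h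

theorem PWJ_indep {s : ℕ} {W : Finset (Fin s → ℕ)} (hW : (0 : Fin s → ℕ) ∈ W)
    {F : {κ // κ ∈ W} → MvPolynomial (Fin (n + 2)) ℂ}
    (hind : AlgebraicIndependent ℚ
      (fun q : {κ // κ ∈ W} × Mon' n => coeff q.2.1 (F q.1))) :
    AlgebraicIndependent ℚ (PWJ_c F) := by
  have h1 : AlgebraicIndependent ℚ (fun β : Mon' n => coeff β.1 (F ⟨0, hW⟩)) :=
    hind.comp (fun β : Mon' n => ((⟨0, hW⟩ : {κ // κ ∈ W}), β)) (fun β β' h => (Prod.ext_iff.1 h).2)
  apply X6J_ofc (eval (0 : Fin s → ℂ))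
  simp only [PWJ_eval hW]
  exact h1

theorem PWJ_coeff {s : ℕ} {W : Finset (Fin s → ℕ)}
    (F : {κ // κ ∈ W} → MvPolynomial (Fin (n + 2)) ℂ) {K M : Type} [Field K] [Field M]
    [Algebra (MvPolynomial (Fin s) ℂ) K] [Algebra ℂ K]
    [IsScalarTower ℂ (MvPolynomial (Fin s) ℂ) K] [Algebra K M] (β : Mon' n) :
    algebraMap K M (algebraMap (MvPolynomial (Fin s) ℂ) K (PWJ_c F β)) =
      coeff β.1 (∑ κ : {κ // κ ∈ W},
        C (algebraMap K M (mon (fun j => algebraMap (MvPolynomial (Fin s) ℂ) K (X j)) κ.1)) *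
        map ((algebraMap K M).comp (algebraMap ℂ K)) (F κ)) := by
  rw [coeff_sum]
  unfold PWJ_c
  rw [map_sum, map_sum]
  refine Finset.sum_congr rfl fun κ _ => ?_
  rw [coeff_C_mul, coeff_map, map_mul, map_mul, mon_map (algebraMap (MvPolynomial (Fin s) ℂ) K),
    RingHom.comp_apply, IsScalarTower.algebraMap_apply ℂ (MvPolynomial (Fin s) ℂ) K,
    MvPolynomial.algebraMap_eq, mul_comm]

/-- T9. forms over the field of rational functions -/
theorem indep_famw {s : ℕ} {W : Finset (Fin s → ℕ)} (hW : (0 : Fin s → ℕ) ∈ W)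
    {F : {κ // κ ∈ W} → MvPolynomial (Fin (n + 2)) ℂ}
    (hind : AlgebraicIndependent ℚ
      (fun q : {κ // κ ∈ W} × Mon' n => coeff q.2.1 (F q.1)))
    {M : Type} [Field M] [CharZero M] [Algebra (FractionRing (MvPolynomial (Fin s) ℂ)) M]
    {z : Fin n → M}
    (hz : AlgebraicIndependent (FractionRing (MvPolynomial (Fin s) ℂ)) z) :
    AlgebraicIndependent ℚ (Sum.elim (fun β : Mon' n =>
      coeff β.1 (∑ κ : {κ // κ ∈ W},
        C (algebraMap (FractionRing (MvPolynomial (Fin s) ℂ)) M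
          (mon (fun j => algebraMap (MvPolynomial (Fin s) ℂ) (FractionRing (MvPolynomial (Fin s) ℂ)) (X j)) κ.1)) *
        map ((algebraMap (FractionRing (MvPolynomial (Fin s) ℂ)) M).comp
          (algebraMap ℂ (FractionRing (MvPolynomial (Fin s) ℂ)))) (F κ))) z) := by
  have h := X6J_tow (algebraMap (MvPolynomial (Fin s) ℂ) (FractionRing (MvPolynomial (Fin s) ℂ)))
    (IsFractionRing.injective _ _) (PWJ_indep hW hind) hz
  have e : (fun β : Mon' n => algebraMap (FractionRing (MvPolynomial (Fin s) ℂ)) M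
      (algebraMap (MvPolynomial (Fin s) ℂ) (FractionRing (MvPolynomial (Fin s) ℂ)) (PWJ_c F β))) =
      fun β : Mon' n =>
      coeff β.1 (∑ κ : {κ // κ ∈ W},
        C (algebraMap (FractionRing (MvPolynomial (Fin s) ℂ)) M
          (mon (fun j => algebraMap (MvPolynomial (Fin s) ℂ) (FractionRing (MvPolynomial (Fin s) ℂ)) (X j)) κ.1)) *
        map ((algebraMap (FractionRing (MvPolynomial (Fin s) ℂ)) M).comp
          (algebraMap ℂ (FractionRing (MvPolynomial (Fin s) ℂ)))) (F κ)) :=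
    funext fun β => PWJ_coeff F β
  rw [e] at h
  exact h

end

end Pool.Agent.H900.PW
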