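import Pool.Agent.H900.PW.Bs
import Pool.Agent.H900.PW.Co
import Pool.Agent.H900.PN.Tc
import Pool.Agent.H900.PW.Fw

/-! # Transfer to the complex numbers, arbitrary coefficients -/

set_option autoImplicit false
set_option linter.unusedSectionVars false
set_option linter.unusedVariables false

namespace Pool.Agent.H900.PW

open MvPolynomial FF Module Pool.Agent.Helper93K9.PAR
open Pool.Agent.H900.PN (fv fv_map Dat Phi Phi_hom Phi_map Tr Nrm Ani Lkk UU uu eqv chain_lift2
  )
open Pool.Agent.H900

noncomputable section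


/-- **The theorem over the complex numbers**, for independent parameters. -/
theorem over_Cw {s n m : ℕ} (D : Dat n (Fin s)) {i0 : Fin s} {j0 : Fin n}
    (hj0 : D.side j0 = false) (hj1 : D.sg j0 = {i0}) {W : Finset (Fin s → ℕ)}
    (hW0 : (0 : Fin s → ℕ) ∈ W) (hT1 : {i0} ∈ sq W) (hTD : ∀ j, D.sg j ∈ sq W)
    {F : (Fin s → ℕ) → MvPolynomial (Fin (n + 2)) ℂ} (hF : ∀ κ ∈ W, (F κ).IsHomogeneous 3)
    (hind : AlgebraicIndependent ℚ (fun p : W × {β : Fin (n + 2) →₀ ℕ // β.degree = 3} =>
      MvPolynomial.coeff p.2.1 (F p.1)))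
    {M : Type} [Field M] [Algebra ℂ M] (t : Fin s → M) (g : Fin (n + 2) → M) (R : Fin m → M)
    (hg : fw W (mon t) F g = 0) (hg0 : g 0 ≠ 0) (hi : AlgebraicIndependent ℂ (UU t g R))
    (hodd : Odd (finrank (Kc ℂ (UU t g R)) M)) (l : Fin (n + 2) → M)
    (hl1 : ∀ i j, ¬ AlgebraicIndependent ℂ (Fin.cons (l i / l j) t : Fin (s + 1) → M)) :
    ¬ Relation.ReflTransGen (fun a b : Fin (n + 2) → M => a ≠ 0 ∧ b ≠ 0 ∧
      Lkk (fw W (fun κ => Polynomial.C (mon t κ)) F) a b) g l := by
  classical
  intro hch
  obtain ⟨Tt, hTt⟩ := chain_lift2 hch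
  obtain ⟨Ω, c, G, hΩ, hc, halg, hG, hFG⟩ := base_famw (Nat.succ_pos _) hW0 F
    (extd (Phi ℚ D i0)) hF (fun κ _ => extd_hom (fun τ => Phi_hom D i0 τ) κ) hind
  have hchar : CharZero Ω := inferInstance
  have hFΩ : ∀ {A : Type} [CommRing A] [Algebra ℂ A] (tt : Fin s → A) (y : Fin (n + 2) → A),
      fw W (mon tt) F y =
        eqnw (sq W) tt (Phi Ω D i0) W (mon tt) G (algebraMap ℂ A c) y := by
    intro A _ _ tt y
    unfold eqnw
    rw [← fw_extd]
    unfold fw
    rw [Finset.mul_sum, ← Finset.sum_add_distrib]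
    refine Finset.sum_congr rfl fun κ hκ => ?_
    rw [hFG κ hκ, map_add, map_mul, aeval_C]
    have h1 : map (algebraMap ℚ ℂ) (extd (Phi ℚ D i0) κ) =
        map (algebraMap Ω ℂ) (extd (Phi Ω D i0) κ) := by
      have h0 : (fun τ => map (algebraMap ℚ ℂ) (Phi ℚ D i0 τ)) =
          fun τ => map (algebraMap Ω ℂ) (Phi Ω D i0 τ) := by
        funext τ
        rw [Phi_map, Phi_map]
      rw [extd_map, extd_map, h0]
    rw [h1, aeval_map_algebraMap, aeval_map_algebraMap]
    ring
  have hfin : FiniteDimensional (Kc ℂ (UU t g R)) M := FiniteDimensional.of_finrank_pos hodd.pos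
  obtain ⟨K, E, _, _, _, _, _, _, ι, ε, c', u', hFF, hc', hιε, hu', hTm, hTc, hdu⟩ :=
    LF.desc2 Ω ℂ M c hc halg _ (UU t g R)
      (Finset.univ.image l ∪ (Tt ∪ (Finset.univ.image g ∪ (Finset.univ.image t ∪
        Finset.univ.image R)))) ∅ hfin
  have hEinj : Function.Injective ε := (ε : E →+* M).injective
  have hιinj : Function.Injective ι := (ι : K →+* ℂ).injective
  choose l' hεl using fun i => hTm (l i) (Finset.mem_union_left _
    (Finset.mem_image_of_mem _ (Finset.mem_univ i)))
  choose g' hεg using fun i => hTm (g i) (Finset.mem_union_right _ (Finset.mem_union_right _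
    (Finset.mem_union_left _ (Finset.mem_image_of_mem _ (Finset.mem_univ i)))))
  choose t' hεt using fun i => hTm (t i) (Finset.mem_union_right _ (Finset.mem_union_right _
    (Finset.mem_union_right _ (Finset.mem_union_left _
      (Finset.mem_image_of_mem _ (Finset.mem_univ i))))))
  choose R' hεR using fun i => hTm (R i) (Finset.mem_union_right _ (Finset.mem_union_right _
    (Finset.mem_union_right _ (Finset.mem_union_right _
      (Finset.mem_image_of_mem _ (Finset.mem_univ i))))))
  have hUU : ∀ i, ε (UU t' g' R' i) = UU t g R i := by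
    intro i
    unfold UU
    rw [Function.comp_apply, Function.comp_apply]
    rcases eqv s n m i with a | a | a
    · exact hεt a
    · show ε (g' a.castSucc.succ / g' 0) = g a.castSucc.succ / g 0
      rw [map_div₀, hεg, hεg]
    · exact hεR a
  have huy : u' = UU t' g' R' := by
    funext i
    apply hEinj
    rw [hu', hUU]
  have hmon : (fun κ => ε (mon t' κ)) = mon t := by
    funext κ
    rw [← funext hεt]
    exact mon_map (ε : E →+* M) t' κ
  have hευ : ∀ y : Fin (n + 2) → E,
      ε (eqnw (sq W) t' (Phi Ω D i0) W (mon t') G (algebraMap K E c') y) =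
      fw W (mon t) F (fun i => ε (y i)) := by
    intro y
    rw [hFΩ]
    unfold eqnw
    rw [map_add, map_mul, hιε, hc', fv_map, fw_map, funext hεt, hmon]
  have hctr : Transcendental Ω c' := by
    intro h
    apply hc
    rw [← hc']
    exact h.algHom ι
  refine corew D hj0 hj1 (sq_zero hW0) hT1 hTD hG hctr t' g' R' ?_ ?_ ?_ ?_ l' (fun i j hij => ?_) ?_
  · apply hEinj
    rw [hευ, funext hεg, hg, map_zero]
  · intro h0
    apply hg0
    rw [← hεg, h0, map_zero]
  · apply ind_down hιε
    rw [funext hUU]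
    exact hi
  · rw [← huy, hdu]
    exact hodd
  · apply hl1 i j
    have h1 := ind_up hιε (alg_of hc' halg) hij
    have h2 : (fun a => ε ((Fin.cons (l' i / l' j) t' : Fin (s + 1) → E) a)) =
        Fin.cons (l i / l j) t := by
      funext a
      refine Fin.cases ?_ (fun a => ?_) a
      · show ε (l' i / l' j) = l i / l j
        rw [map_div₀, hεl, hεl]
      · exact hεt _
    rw [h2] at h1
    exact h1
  · refine hTt E _ (ε : E →+* M)
      (fun z hz => hTm z (Finset.mem_union_right _ (Finset.mem_union_left _ hz)))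
      (fun y => ?_) _ _ hεg hεl
    have hCm : (fun κ => Polynomial.C (mon t κ)) = mon fun i => Polynomial.C (t i) := by
      funext κ
      exact mon_map (Polynomial.C : M →+* Polynomial M) t κ
    rw [hCm, hFΩ, ← hCm]
    have h3 : (fun i => (Polynomial.mapAlgHom ε) (Polynomial.C (t' i))) =
        fun i => Polynomial.C (t i) := by
      funext i
      rw [← hεt]
      exact Polynomial.map_C _
    have h4 : (fun κ => (Polynomial.mapAlgHom ε) (Polynomial.C (mon t' κ))) =
        fun κ => Polynomial.C (mon t κ) := by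
      funext κ
      rw [← hmon]
      exact Polynomial.map_C _
    have e1 : Polynomial.map (ε : E →+* M)
        (fv (sq W) (fun i => Polynomial.C (t' i)) (Phi Ω D i0) y) =
          fv (sq W) (fun i => Polynomial.C (t i)) (Phi Ω D i0)
            fun i => (y i).map (ε : E →+* M) := by
      have h2 := fv_map (Polynomial.mapAlgHom ε) (sq W) (fun i => Polynomial.C (t' i))
        (Phi Ω D i0) y
      rw [h3] at h2
      exact h2
    have e2 : Polynomial.map (ε : E →+* M)
        (fw W (fun κ => Polynomial.C (mon t' κ)) G y) =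
          fw W (fun κ => Polynomial.C (mon t κ)) G fun i => (y i).map (ε : E →+* M) := by
      have h2 := fw_map (Polynomial.mapAlgHom ε) W (fun κ => Polynomial.C (mon t' κ)) G y
      rw [h4] at h2
      exact h2
    unfold eqnw
    rw [Polynomial.map_add, Polynomial.map_mul, e1, e2, Polynomial.map_C]
    congr 2
    have h5 : (ε : E →+* M) (algebraMap K E c') = algebraMap ℂ M c := by
      show ε (algebraMap K E c') = _
      rw [hιε, hc']
    rw [h5, IsScalarTower.algebraMap_apply ℂ M (Polynomial M), Polynomial.algebraMap_apply]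
    rfl

end

end Pool.Agent.H900.PW
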